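import Mathlib
import Pool.Agent.Helper64.Vojta.OneSpace

/-!
Heights, Weil functions and the left side of Vojta's inequality on the projective line, relative
to a number field `k`. The basic notions are those of `Pool/Agent/Helper64/Vojta`:
`Pl L` (places of `L`), `nv w` (normalised absolute value), `sn w` (maximum norm of a vector),
`ev a x` (value of the linear form with coefficients `a`), `cst a` (form over `k` seen over `L`),
`wloc w a x = log (‖a‖_w ‖x‖_w / ‖a(x)‖_w)`, `above L ν` (places of `L` above `ν`).
-/

namespace Pool.Agent.Helper65.Vojta

open NumberField Finset Pool.Agent.Helper64.Vojta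

universe u v

section

variable (k : Type u) [Field k] [NumberField k] {L : Type v} [Field L] [NumberField L] [Algebra k L]

/-- Logarithmic height, relative to `k`, of the point of the projective line with homogeneous
coordinates `x`; `Height.logHeight` is Mathlib's height relative to `L`. -/
noncomputable def hgt (x : Fin 2 → L) : ℝ := Height.logHeight x / Module.finrank k L

/-- Logarithmic discriminant `d_k(L)`. -/
noncomputable def dk (k : Type u) [Field k] [NumberField k] (L : Type v) [Field L] [NumberField L]
    [Algebra k L] : ℝ :=
  Real.log |(discr L : ℝ)| / Module.finrank k L - Real.log |(discr k : ℝ)|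

variable {k}

/-- The Weil function, relative to `k`, at the place `ν` of `k`, of the divisor
`D = ∑_i {D i = 0}` on the projective line. -/
noncomputable def lamD {q : ℕ} (D : Fin q → Fin 2 → k) (ν : Pl k) (x : Fin 2 → L) : ℝ :=
  (∑ w ∈ above L ν, ∑ i, wloc w (D i) x) / Module.finrank k L

/-- Left side of Vojta's inequality: `h_K(x) + ∑_{ν ∈ S} λ_D(x,ν)`, with `K = -2 H`. -/
noncomputable def lhs {q : ℕ} (D : Fin q → Fin 2 → k) (S : Finset (Pl k)) (x : Fin 2 → L) : ℝ :=
  -(2 * hgt k x) + ∑ ν ∈ S, lamD D ν x

end

end Pool.Agent.Helper65.Vojta
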