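import Mathlib
import Pool.Agent.Helper64.Vojta.OneSpace

/-!
Uniform bounds for the contribution of constants of the base field.
-/

set_option linter.unusedSectionVars false
set_option linter.unusedVariables false

namespace Pool.Agent.Helper65.Vojta

open NumberField Finset Pool.Agent.Helper64.Vojta

universe u v

section

variable {k : Type u} [Field k] [NumberField k]

/-- positive part of the logarithm -/
noncomputable def lp (t : ℝ) : ℝ := max 0 (Real.log t)

theorem lp_nonneg (t : ℝ) : 0 ≤ lp t := le_max_left _ _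

theorem log_le_lp (t : ℝ) : Real.log t ≤ lp t := le_max_right _ _

/-- Uniform bound for the finite part of the height of a constant. -/
theorem fin_const (c : k) (r : ℕ) : ∃ C : ℝ, 0 ≤ C ∧
    ∀ (L : Type v) [Field L] [NumberField L] [Algebra k L], Module.finrank k L ≤ r →
    ∀ F : Finset (FinitePlace L), ∑ w ∈ F, lp (nv (.inr w) (algebraMap k L c)) ≤ C := by
  classical
  obtain ⟨b, s, hs, hc⟩ := IsFractionRing.div_surjective (A := 𝓞 k) c
  have hs0 : s ≠ 0 := nonZeroDivisors.ne_zero hs
  obtain ⟨B, hB1, hB⟩ := inf_bound.{u, v} (s : k)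
  have hlB : 0 ≤ Real.log B := Real.log_nonneg hB1
  refine ⟨(Module.finrank ℚ k * r : ℕ) * Real.log B, by positivity, ?_⟩
  intro L _ _ _ hr F
  have hsL : algebraMap k L s ≠ 0 := by simpa using hs0
  have hint : ∀ w : FinitePlace L, nv (.inr w) (algebraMap k L s) ≤ 1 := by
    intro w
    have := nv_int_le_one w (algebraMap (𝓞 k) (𝓞 L) s)
    rwa [show ((algebraMap (𝓞 k) (𝓞 L) s : 𝓞 L) : L) = algebraMap k L s from rfl] at this
  have hle : ∀ w : FinitePlace L, Real.log (nv (.inr w) (algebraMap k L s)) ≤ 0 := fun w =>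
    Real.log_nonpos (nv_nonneg _ _) (hint w)
  have h1 : ∀ w : FinitePlace L, lp (nv (.inr w) (algebraMap k L c))
      ≤ -Real.log (nv (.inr w) (algebraMap k L s)) := by
    intro w
    have hnn : 0 ≤ -Real.log (nv (.inr w) (algebraMap k L s)) := by linarith [hle w]
    refine max_le hnn ?_
    have h3 : nv (.inr w) (algebraMap k L c) = nv (.inr w) (algebraMap k L b) * (nv (.inr w) (algebraMap k L s))⁻¹ := by
      rw [← hc, map_div₀, div_eq_mul_inv, nv_mul, nv_inv]
    have h4 : nv (.inr w) (algebraMap k L b) ≤ 1 := by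
      have := nv_int_le_one w (algebraMap (𝓞 k) (𝓞 L) b)
      rwa [show ((algebraMap (𝓞 k) (𝓞 L) b : 𝓞 L) : L) = algebraMap k L b from rfl] at this
    rw [← Real.log_inv]
    rcases (nv_nonneg (.inr w) (algebraMap k L c)).eq_or_lt with h0 | h0
    · rw [← h0, Real.log_zero, Real.log_inv]
      exact hnn
    · refine Real.log_le_log h0 ?_
      rw [h3]
      calc _ ≤ 1 * (nv (.inr w) (algebraMap k L s))⁻¹ :=
            mul_le_mul_of_nonneg_right h4 (inv_nonneg.mpr (nv_nonneg _ _))
        _ = _ := one_mul _
  have hfs : (Function.support fun w : FinitePlace L => -Real.log (nv (.inr w) (algebraMap k L s))).Finite := by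
    have h0 : (Function.support fun w : FinitePlace L => Real.log (nv (.inr w) (algebraMap k L s))).Finite :=
      log_support _ (fin_support_nv hsL)
    refine h0.subset ?_
    intro w hw
    simp only [Function.mem_support] at hw ⊢
    exact fun h => hw (by rw [h, neg_zero])
  have h2 : ∑ w ∈ F, -Real.log (nv (.inr w) (algebraMap k L s))
      ≤ ∑ᶠ w : FinitePlace L, -Real.log (nv (.inr w) (algebraMap k L s)) := by
    rw [finsum_eq_sum_of_support_subset _ (s := hfs.toFinset ∪ F) (by
      intro w hw; simp only [Finset.coe_union, Set.mem_union]; left; simpa using hw)]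
    exact Finset.sum_le_sum_of_subset_of_nonneg Finset.subset_union_right fun w _ _ => by
      linarith [hle w]
  have hpf := product_formula_log hsL
  have hsum : ∑ w : InfinitePlace L, Real.log (nv (.inl w) (algebraMap k L s))
      ≤ (Module.finrank ℚ k * r : ℕ) * Real.log B := by
    calc ∑ w : InfinitePlace L, Real.log (nv (.inl w) (algebraMap k L s))
        ≤ ∑ w : InfinitePlace L, Real.log B :=
          Finset.sum_le_sum fun w _ => Real.log_le_log (nv_pos (.inl w) hsL) (hB L w)
      _ = Fintype.card (InfinitePlace L) * Real.log B := by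
          rw [Finset.sum_const, Finset.card_univ, nsmul_eq_mul]
      _ ≤ _ := by
          apply mul_le_mul_of_nonneg_right _ hlB
          exact_mod_cast card_inf_le' hr
  rw [finsum_neg_distrib] at h2
  calc _ ≤ ∑ w ∈ F, -Real.log (nv (.inr w) (algebraMap k L s)) := Finset.sum_le_sum fun w _ => h1 w
    _ ≤ _ := h2
    _ ≤ _ := by linarith

/-- Uniform bound for the finite part of the height of finitely many constants. -/
theorem fin_consts {ι : Type*} [Fintype ι] (c : ι → k) (r : ℕ) : ∃ C : ℝ, 0 ≤ C ∧
    ∀ (L : Type v) [Field L] [NumberField L] [Algebra k L], Module.finrank k L ≤ r →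
    ∀ F : Finset (FinitePlace L), ∑ w ∈ F, ∑ i, lp (nv (.inr w) (algebraMap k L (c i))) ≤ C := by
  classical
  choose C hC0 hC using fun i => fin_const.{u, v} (c i) r
  refine ⟨∑ i, C i, Finset.sum_nonneg fun i _ => hC0 i, ?_⟩
  intro L _ _ _ hr F
  rw [Finset.sum_comm]
  exact Finset.sum_le_sum fun i _ => hC i L hr F

/-- log of a constant is bounded at all places -/
theorem abs_log_const (c : k) (hc : c ≠ 0) (r : ℕ) : ∃ C : ℝ, 0 ≤ C ∧
    ∀ (L : Type v) [Field L] [NumberField L] [Algebra k L], Module.finrank k L ≤ r →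
    ∀ w : Pl L, |Real.log (nv w (algebraMap k L c))| ≤ C := by
  obtain ⟨C1, h1, hC1⟩ := exists_bound.{u, v} c r
  obtain ⟨C2, h2, hC2⟩ := exists_bound.{u, v} c⁻¹ r
  have g1 := Real.log_nonneg h1
  have g2 := Real.log_nonneg h2
  refine ⟨Real.log C1 + Real.log C2, by positivity, ?_⟩
  intro L _ _ _ hr w
  have hcL : algebraMap k L c ≠ 0 := by simpa using hc
  have e1 := Real.log_le_log (nv_pos w hcL) (hC1 L hr w)
  have e2 := Real.log_le_log (nv_pos w (by simpa using hc)) (hC2 L hr w)
  rw [map_inv₀, nv_inv, Real.log_inv] at e2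
  rw [abs_le]
  constructor <;> linarith

/-- Lower bound for the sum of the local terms of a form over a set of places containing all
infinite places and such that the finite places outside contribute little. -/
theorem sum_loc_ge {L : Type v} [Field L] [NumberField L] {m : ℕ} (a x : Fin m → L) (hx : x ≠ 0)
    (hax : ev a x ≠ 0) (W : Finset (Pl L)) (hW : ∀ w : InfinitePlace L, Sum.inl w ∈ W) (C : ℝ)
    (hC : ∀ F : Finset (FinitePlace L), (∀ w ∈ F, Sum.inr w ∉ W) →
      ∑ w ∈ F, (Real.log (sn (.inr w) x) - Real.log (nv (.inr w) (ev a x))) ≤ C) :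
    Height.logHeight x - C ≤ ∑ w ∈ W, loc w a x := by
  classical
  have hfs : (Function.support (fun w : FinitePlace L =>
      Real.log (sn (.inr w) x) - Real.log (nv (.inr w) (ev a x)))).Finite :=
    (log_support _ (fin_support_sn hx)).sub (log_support _ (fin_support_nv hax))
  have e2 : ∑ᶠ w : FinitePlace L, (Real.log (sn (.inr w) x) - Real.log (nv (.inr w) (ev a x)))
      = ∑ᶠ w : FinitePlace L, Real.log (sn (.inr w) x)
      - ∑ᶠ w : FinitePlace L, Real.log (nv (.inr w) (ev a x)) :=
    finsum_sub_distrib (log_support _ (fin_support_sn hx)) (log_support _ (fin_support_nv hax))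
  have hpf := product_formula_log hax
  have hh := logHeight_eq hx
  have hWl : W.toLeft = Finset.univ := by
    ext w; simp [hW w]
  have hsum : ∑ w ∈ W, loc w a x = ∑ w : InfinitePlace L,
        (Real.log (sn (.inl w) x) - Real.log (nv (.inl w) (ev a x)))
      + ∑ w ∈ W.toRight, (Real.log (sn (.inr w) x) - Real.log (nv (.inr w) (ev a x))) := by
    rw [← Finset.toLeft_disjSum_toRight (u := W), Finset.sum_disjSum, hWl]
    simp [loc]
  have h3 : ∑ᶠ w : FinitePlace L, (Real.log (sn (.inr w) x) - Real.log (nv (.inr w) (ev a x)))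
      ≤ ∑ w ∈ W.toRight, (Real.log (sn (.inr w) x) - Real.log (nv (.inr w) (ev a x))) + C := by
    rw [finsum_eq_sum_of_support_subset _ (s := hfs.toFinset ∪ W.toRight) (by
      intro w hw; simp only [Finset.coe_union, Set.mem_union]; left; simpa using hw)]
    have h4 : hfs.toFinset ∪ W.toRight = W.toRight ∪ (hfs.toFinset \ W.toRight) := by
      ext w; simp only [Finset.mem_union, Finset.mem_sdiff]; tauto
    rw [h4, Finset.sum_union Finset.disjoint_sdiff]
    have := hC (hfs.toFinset \ W.toRight) (by
      intro w hw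
      rw [Finset.mem_sdiff] at hw
      simpa using hw.2)
    linarith
  rw [hsum, Finset.sum_sub_distrib]
  linarith

/-- the local term of a form is bounded below -/
theorem wloc_ge {L : Type v} [Field L] [NumberField L] [Algebra k L] {m : ℕ} (a : Fin m → k)
    (ha : a ≠ 0) (x : Fin m → L) (hx : x ≠ 0) (hax : ev (cst a) x ≠ 0) (w : Pl L) :
    -Real.log ((m + 1 : ℝ) ^ 2) ≤ wloc w a x := by
  have h2 : 0 < sn w (cst a : Fin m → L) := sn_pos w (cst_ne_zero ha)
  have h3 : 0 < sn w x := sn_pos w hx
  have h1 : nv w (ev (cst a) x) ≤ (m + 1 : ℝ) ^ 2 * (sn w (cst a : Fin m → L) * sn w x) := by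
    have := nv_sum_le w Finset.univ (fun i => (cst a : Fin m → L) i * x i) (sn w (cst a : Fin m → L) * sn w x)
      (by positivity) (fun i _ => by
        rw [nv_mul]
        exact mul_le_mul (le_sn _ _ _) (le_sn _ _ _) (nv_nonneg _ _) h2.le)
    simpa [ev, Finset.card_univ, Fintype.card_fin] using this
  unfold wloc
  have h4 : 0 < nv w (ev (cst a) x) := nv_pos w hax
  rw [← Real.log_inv]
  apply Real.log_le_log (by positivity)
  rw [inv_le_comm₀ (by positivity) (by positivity), inv_div, div_le_iff₀ (by positivity)]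
  exact h1

end

end Pool.Agent.Helper65.Vojta
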