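import Mathlib
import Pool.Agent.Helper64.Vojta.Places

/-!
An integral S-unit of infinite order, and its powers modulo powers of a prime number.
-/

namespace Pool.Agent.Helper65.Vojta

open NumberField Finset Pool.Agent.Helper64.Vojta

section

variable {k : Type*} [Field k] [NumberField k]

theorem fin_eq_one_iff (v : FinitePlace k) (x : 𝓞 k) : v (x : k) = 1 ↔ x ∉ v.maximalIdeal.asIdeal := by
  rw [← FinitePlace.norm_embedding_eq v]
  exact FinitePlace.norm_eq_one_iff_notMem k v.maximalIdeal x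

/-- If an algebraic integer has all infinite absolute values at most one, and is nonzero, it is
a unit. -/
theorem isUnit_of_le_one {x : 𝓞 k} (hx : x ≠ 0) (h : ∀ v : InfinitePlace k, v (x : k) ≤ 1) : IsUnit x := by
  rw [NumberField.isUnit_iff_norm]
  have h1 := InfinitePlace.prod_eq_abs_norm (x : k)
  have h2 : ∏ w : InfinitePlace k, w (x : k) ^ w.mult ≤ 1 :=
    Finset.prod_le_one (fun w _ => pow_nonneg (apply_nonneg w _) _)
      (fun w _ => pow_le_one₀ (apply_nonneg w _) (h w))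
  rw [h1] at h2
  have h3 : Algebra.norm ℤ x ≠ 0 := Algebra.norm_ne_zero_iff.mpr hx
  have h4 : ((Algebra.norm ℤ x : ℤ) : ℚ) = Algebra.norm ℚ (x : k) := Algebra.coe_norm_int x
  have h5 : |((Algebra.norm ℤ x : ℤ) : ℚ)| ≤ 1 := by
    rw [h4]; exact_mod_cast h2
  have h6 : |Algebra.norm ℤ x| = 1 := by
    have h7 : |Algebra.norm ℤ x| ≤ 1 := by exact_mod_cast h5
    have h8 : 0 < |Algebra.norm ℤ x| := abs_pos.mpr h3
    omega
  rw [RingOfIntegers.coe_norm, ← h4]
  exact_mod_cast h6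

theorem exists_sunit (S : Finset (Pl k)) (h2 : 2 ≤ S.card) : ∃ ε : 𝓞 k, ε ≠ 0 ∧ (∀ v : FinitePlace k, Sum.inr v ∉ S → v (ε : k) = 1) ∧
      ∃ v : InfinitePlace k, 1 < v (ε : k) := by
  classical
  by_cases hfin : ∃ v0 : FinitePlace k, Sum.inr v0 ∈ S
  · obtain ⟨v0, hv0⟩ := hfin
    have hP0 : v0.maximalIdeal.asIdeal ≠ ⊥ := v0.maximalIdeal.ne_bot
    set h := Fintype.card (ClassGroup (𝓞 k)) with hh
    have hh0 : h ≠ 0 := Fintype.card_ne_zero
    have hprinc : (v0.maximalIdeal.asIdeal ^ h).IsPrincipal := by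
      rw [← ClassGroup.mk0_eq_one_iff (pow_mem (mem_nonZeroDivisors_of_ne_zero hP0) h)]
      have : (⟨v0.maximalIdeal.asIdeal ^ h, pow_mem (mem_nonZeroDivisors_of_ne_zero hP0) h⟩ : nonZeroDivisors (Ideal (𝓞 k)))
        = ⟨v0.maximalIdeal.asIdeal, mem_nonZeroDivisors_of_ne_zero hP0⟩ ^ h := rfl
      rw [this, map_pow, hh]
      exact pow_card_eq_one
    obtain ⟨π, hπ⟩ := hprinc
    have hπ' : v0.maximalIdeal.asIdeal ^ h = Ideal.span {π} := hπ
    have hπ0 : π ≠ 0 := by
      rintro rfl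
      rw [Ideal.span_singleton_eq_bot.mpr rfl] at hπ'
      exact pow_ne_zero h hP0 hπ'
    refine ⟨π, hπ0, ?_, ?_⟩
    · intro v hv
      rw [fin_eq_one_iff]
      intro hmem
      have h1 : Ideal.span {π} ≤ v.maximalIdeal.asIdeal := (Ideal.span_singleton_le_iff_mem _).mpr hmem
      rw [← hπ'] at h1
      have h3 : v0.maximalIdeal.asIdeal ≤ v.maximalIdeal.asIdeal :=
        Ideal.IsPrime.le_of_pow_le h1
      have h4 : v0.maximalIdeal.asIdeal = v.maximalIdeal.asIdeal :=
        v0.maximalIdeal.isMaximal.eq_of_le v.maximalIdeal.isPrime.ne_top h3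
      have h5 : v0 = v := by
        rw [← FinitePlace.maximalIdeal_inj]
        exact IsDedekindDomain.HeightOneSpectrum.ext h4
      rw [h5] at hv0
      exact hv hv0
    · by_contra hcon
      push Not at hcon
      have hu := isUnit_of_le_one hπ0 hcon
      rw [Ideal.span_singleton_eq_top.mpr hu] at hπ'
      have : v0.maximalIdeal.asIdeal = ⊤ := by
        rw [eq_top_iff, ← hπ']
        exact Ideal.pow_le_self hh0
      exact v0.maximalIdeal.isPrime.ne_top this
  · push Not at hfin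
    have hcard : S.card ≤ Fintype.card (InfinitePlace k) := by
      have : S ⊆ (Finset.univ : Finset (InfinitePlace k)).image Sum.inl := by
        intro v hv
        rcases v with v | v
        · exact Finset.mem_image_of_mem _ (Finset.mem_univ v)
        · exact absurd hv (hfin v)
      exact (Finset.card_le_card this).trans Finset.card_image_le
    have hrank : 0 < Units.rank k := by
      rw [Units.rank]; omega
    set u : (𝓞 k)ˣ := Units.fundSystem k ⟨0, hrank⟩ with hu
    have hnt : u ∉ Units.torsion k := by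
      intro htor
      have h1 := Units.logEmbedding_fundSystem k ⟨0, hrank⟩
      rw [← hu, Units.dirichletUnitTheorem.logEmbedding_eq_zero_iff.mpr htor] at h1
      refine (Units.basisUnitLattice k).ne_zero ⟨0, hrank⟩ ?_
      exact Subtype.ext h1.symm
    refine ⟨u, u.ne_zero, ?_, ?_⟩
    · intro v _
      rw [fin_eq_one_iff]
      intro hmem
      exact v.maximalIdeal.isPrime.ne_top (Ideal.eq_top_of_isUnit_mem _ hmem u.isUnit)
    · by_contra hcon
      push Not at hcon
      apply hnt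
      rw [Units.mem_torsion]
      have hprod : ∏ w : InfinitePlace k, w (u : k) ^ w.mult = 1 := by
        rw [InfinitePlace.prod_eq_abs_norm]
        have := NumberField.isUnit_iff_norm.mp u.isUnit
        rw [RingOfIntegers.coe_norm] at this
        exact_mod_cast this
      intro w
      have hle : ∀ w : InfinitePlace k, w (u : k) ^ w.mult ≤ 1 := fun w =>
        pow_le_one₀ (apply_nonneg w _) (hcon w)
      have h1 : w (u : k) ^ w.mult = 1 := by
        refine le_antisymm (hle w) ?_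
        rw [← hprod, ← Finset.mul_prod_erase _ _ (Finset.mem_univ w)]
        refine mul_le_of_le_one_right (pow_nonneg (apply_nonneg w _) _) ?_
        exact Finset.prod_le_one (fun w _ => pow_nonneg (apply_nonneg w _) _) (fun w _ => hle w)
      exact (pow_eq_one_iff_of_nonneg (apply_nonneg w _) w.mult_ne_zero).mp h1

/-- Powers of `ε` congruent to one modulo high powers of a prime number. -/
theorem exists_period (ε : 𝓞 k) (hε : ε ≠ 0) : ∃ ℓ : ℕ, 2 ≤ ℓ ∧ ∃ e : ℕ, 0 < e ∧
    ∀ i : ℕ, ((ℓ : 𝓞 k) ^ (i + 1)) ∣ ε ^ (2 * (e * ℓ ^ i)) - 1 := by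
  classical
  have hN : Algebra.norm ℤ ε ≠ 0 := Algebra.norm_ne_zero_iff.mpr hε
  obtain ⟨ℓ, hℓ1, hℓ⟩ := Nat.exists_infinite_primes ((Algebra.norm ℤ ε).natAbs + 1)
  have hcop : IsCoprime (ℓ : ℤ) ((Algebra.norm ℤ ε).natAbs : ℤ) := by
    rw [Nat.isCoprime_iff_coprime]
    refine (Nat.Prime.coprime_iff_not_dvd hℓ).mpr fun hdvd => ?_
    have := Nat.le_of_dvd (Int.natAbs_pos.mpr hN) hdvd
    omega
  have : NeZero ℓ := ⟨hℓ.ne_zero⟩
  set I : Ideal (𝓞 k) := Ideal.span {(ℓ : 𝓞 k)} with hI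
  have hI0 : I ≠ ⊥ := by
    rw [hI, Ne, Ideal.span_singleton_eq_bot]
    exact_mod_cast hℓ.ne_zero
  have : Finite (𝓞 k ⧸ I) := Ideal.finiteQuotientOfFreeOfNeBot I hI0
  have : Fintype (𝓞 k ⧸ I) := Fintype.ofFinite _
  -- `ε` is a unit modulo `ℓ`
  have hunit : IsUnit (Ideal.Quotient.mk I ε) := by
    have hdvd : ε ∣ (((Algebra.norm ℤ ε).natAbs : ℕ) : 𝓞 k) := by
      have := Ideal.absNorm_mem (Ideal.span {ε})
      rwa [Ideal.absNorm_span_singleton, Ideal.mem_span_singleton] at this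
    obtain ⟨c, hc⟩ := hdvd
    obtain ⟨a, b, hab⟩ := hcop
    have h1 : (algebraMap ℤ (𝓞 k) a) * (ℓ : 𝓞 k) + (algebraMap ℤ (𝓞 k) b) * (ε * c) = 1 := by
      rw [← hc]
      have := congrArg (algebraMap ℤ (𝓞 k)) hab
      rw [map_add, map_mul, map_mul, map_one, map_natCast, map_natCast] at this
      exact this
    have h2 : Ideal.Quotient.mk I (ε) * Ideal.Quotient.mk I (c * algebraMap ℤ (𝓞 k) b) = 1 := by
      rw [← map_mul, ← map_one (Ideal.Quotient.mk I), Ideal.Quotient.eq]
      rw [hI, Ideal.mem_span_singleton]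
      refine ⟨-(algebraMap ℤ (𝓞 k) a), ?_⟩
      linear_combination h1
    exact IsUnit.of_mul_eq_one _ h2
  obtain ⟨U, hU⟩ := hunit
  have hfin : IsOfFinOrder (U ^ 2) := isOfFinOrder_of_finite _
  obtain ⟨e, he0, he⟩ := isOfFinOrder_iff_pow_eq_one.mp hfin
  have hbase : (ℓ : 𝓞 k) ∣ (ε ^ 2) ^ e - 1 := by
    rw [← Ideal.mem_span_singleton, ← hI, ← Ideal.Quotient.eq, map_one, map_pow, map_pow, ← hU]
    rw [← Units.val_pow_eq_pow_val, ← Units.val_pow_eq_pow_val, he, Units.val_one]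
  refine ⟨ℓ, hℓ.two_le, e, he0, fun i => ?_⟩
  have := dvd_sub_pow_of_dvd_sub (p := ℓ) (by exact_mod_cast hbase : ((ℓ : ℕ) : 𝓞 k) ∣ (ε ^ 2) ^ e - 1) i
  rw [one_pow] at this
  rw [pow_mul, pow_mul]
  exact this

end

end Pool.Agent.Helper65.Vojta
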