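import Mathlib
import Pool.Agent.Helper65.Vojta.Const
import Pool.Agent.Helper65.Vojta.SUnit

/-!
The places above a finite set of places containing the infinite ones.
-/

namespace Pool.Agent.Helper65.Vojta

open NumberField Finset Pool.Agent.Helper64.Vojta

universe u v

section

variable {k : Type u} [Field k] [NumberField k] {L : Type v} [Field L] [NumberField L] [Algebra k L]

/-- the places of `L` above `S` -/
noncomputable def up (L : Type v) [Field L] [NumberField L] [Algebra k L] (S : Finset (Pl k)) : Finset (Pl L) := by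
  classical exact S.biUnion (above L)

theorem mem_up {S : Finset (Pl k)} {w : Pl L} : w ∈ up L S ↔ ∃ ν ∈ S, Above ν w := by
  classical
  simp [up, mem_above]

theorem card_up_le (S : Finset (Pl k)) : (up L S).card ≤ Module.finrank k L * S.card := by
  classical
  unfold up
  refine Finset.card_biUnion_le.trans ?_
  calc ∑ ν ∈ S, (above L ν).card ≤ ∑ ν ∈ S, Module.finrank k L :=
        Finset.sum_le_sum fun ν _ => card_above_le ν
    _ = Module.finrank k L * S.card := by rw [Finset.sum_const, smul_eq_mul, mul_comm]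

theorem sum_up (S : Finset (Pl k)) (f : Pl L → ℝ) :
    ∑ w ∈ up L S, f w = ∑ ν ∈ S, ∑ w ∈ above L ν, f w := by
  classical
  unfold up
  rw [Finset.sum_biUnion]
  intro a _ b _ hab
  rw [Function.onFun, Finset.disjoint_left]
  intro w hwa hwb
  exact hab (above_unique (mem_above.mp hwa) (mem_above.mp hwb))

theorem inl_mem_up {S : Finset (Pl k)} (hS : ∀ v : InfinitePlace k, Sum.inl v ∈ S) (w : InfinitePlace L) :
    Sum.inl w ∈ up L S := by
  rw [mem_up]
  refine ⟨.inl (w.comap (algebraMap k L)), hS _, ?_⟩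
  change InfinitePlace.LiesOver w (w.comap (algebraMap k L))
  constructor
  rfl

theorem above_fin (w : FinitePlace L) : ∃ ν : FinitePlace k, Above (k := k) (.inr ν) (.inr w) ∧
    ∀ x : 𝓞 k, x ∉ ν.maximalIdeal.asIdeal → w (algebraMap k L x) = 1 := by
  set P := w.maximalIdeal.asIdeal with hP
  have hPp : P.IsPrime := w.maximalIdeal.isPrime
  have hPne : P ≠ ⊥ := w.maximalIdeal.ne_bot
  set p : Ideal (𝓞 k) := P.under (𝓞 k) with hp
  have hpp : p.IsPrime := inferInstance
  have hpne : p ≠ ⊥ := by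
    rw [hp]
    exact Ideal.IsIntegral.comap_ne_bot (R := 𝓞 k) hPne
  refine ⟨FinitePlace.mk ⟨p, hpp, hpne⟩, ?_, ?_⟩
  · change w.maximalIdeal.asIdeal.LiesOver (FinitePlace.mk ⟨p, hpp, hpne⟩).maximalIdeal.asIdeal
    rw [FinitePlace.maximalIdeal_mk]
    exact ⟨rfl⟩
  · intro x hx
    rw [FinitePlace.maximalIdeal_mk] at hx
    have h1 : algebraMap (𝓞 k) (𝓞 L) x ∉ w.maximalIdeal.asIdeal := hx
    rw [← fin_eq_one_iff] at h1
    exact h1

/-- An integral `S`-unit stays one at the finite places not above `S`. -/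
theorem eq_one_of_notMem {S : Finset (Pl k)} {z : 𝓞 k}
    (hz : ∀ v : FinitePlace k, Sum.inr v ∉ S → v (z : k) = 1) (w : FinitePlace L)
    (hw : Sum.inr w ∉ up L S) : nv (.inr w) (algebraMap k L z) = 1 := by
  obtain ⟨ν, hν, h⟩ := above_fin (k := k) w
  have hνS : Sum.inr ν ∉ S := fun hmem => hw (mem_up.mpr ⟨_, hmem, hν⟩)
  exact h z ((fin_eq_one_iff ν z).mp (hz ν hνS))

end

end Pool.Agent.Helper65.Vojta
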