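import Mathlib
import Pool.Agent.Helper65.Vojta.Const
import Pool.Agent.Helper65.Vojta.Cover

/-!
Local estimates for a root `η` of `η² + 1 = 2 z η`.
-/

set_option linter.unusedSectionVars false
set_option linter.unusedVariables false

namespace Pool.Agent.Helper65.Vojta

open NumberField Finset Pool.Agent.Helper64.Vojta

universe u v

section

variable {k : Type u} [Field k] [NumberField k] {L : Type v} [Field L] [NumberField L] [Algebra k L]

theorem nv_int_le (w : FinitePlace L) (z : 𝓞 k) : nv (.inr w) (algebraMap k L z) ≤ 1 := by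
  have := nv_int_le_one w (algebraMap (𝓞 k) (𝓞 L) z)
  rwa [show ((algebraMap (𝓞 k) (𝓞 L) z : 𝓞 L) : L) = algebraMap k L z from rfl] at this

theorem nv_two_le (w : FinitePlace L) : nv (.inr w) (2 : L) ≤ 1 := by
  have := nv_int_le_one w (2 : 𝓞 L)
  rwa [show ((2 : 𝓞 L) : L) = 2 from map_ofNat (algebraMap (𝓞 L) L) 2] at this

theorem nv_neg (w : Pl L) (y : L) : nv w (-y) = nv w y := by
  have h1 : nv w (-1 : L) = 1 := by
    have h2 : nv w (-1 : L) * nv w (-1 : L) = 1 := by
      rw [← nv_mul]; simp [nv_one]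
    nlinarith [nv_nonneg w (-1 : L)]
  rw [← neg_one_mul, nv_mul, h1, one_mul]

theorem eta_ne_zero {η Z : L} (h : η ^ 2 + 1 = 2 * Z * η) : η ≠ 0 := by
  rintro rfl
  simp at h

/-- `η` is a unit at the finite places. -/
theorem eta_fin (w : FinitePlace L) (z : 𝓞 k) {η : L} (h : η ^ 2 + 1 = 2 * algebraMap k L z * η) :
    nv (.inr w) η = 1 := by
  have hη := eta_ne_zero h
  set a := nv (.inr w) η with ha
  have ha0 : 0 < a := nv_pos _ hη
  have hadd : ∀ x y : L, nv (.inr w) (x + y) ≤ max (nv (.inr w) x) (nv (.inr w) y) := fun x y =>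
    FinitePlace.add_le w x y
  have h2z : nv (.inr w) (2 * algebraMap k L z * η) ≤ a := by
    rw [nv_mul, nv_mul]
    have h1 := nv_two_le w
    have h2 := nv_int_le w z
    have h3 : nv (.inr w) (2 : L) * nv (.inr w) (algebraMap k L z) ≤ 1 :=
      mul_le_one₀ h1 (nv_nonneg _ _) h2
    calc _ ≤ 1 * a := mul_le_mul_of_nonneg_right h3 ha0.le
      _ = a := one_mul a
  have e1 : nv (.inr w) (η ^ 2) = a * a := by rw [sq, nv_mul]
  have h3 : a * a ≤ max a 1 := by
    rw [← e1, show η ^ 2 = 2 * algebraMap k L z * η + (-1) by rw [← h]; ring]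
    refine (hadd _ _).trans (max_le_max h2z ?_)
    rw [nv_neg, nv_one]
  have h4 : 1 ≤ max a (a * a) := by
    have : (1 : L) = 2 * algebraMap k L z * η + (-(η ^ 2)) := by rw [← h]; ring
    rw [← nv_one (.inr w : Pl L), this]
    refine (hadd _ _).trans (max_le_max h2z ?_)
    rw [nv_neg, e1]
  rcases lt_trichotomy a 1 with h5 | h5 | h5
  · exfalso
    have : max a (a * a) < 1 := max_lt h5 (by nlinarith)
    linarith
  · exact h5
  · exfalso
    rw [max_eq_left h5.le] at h3
    nlinarith

theorem log_mult_le {w : InfinitePlace L} {a B : ℝ} (ha : 0 < a) (hB : 0 ≤ B) (h : Real.log a ≤ B) :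
    Real.log (a ^ w.mult) ≤ w.mult * B := by
  rw [Real.log_pow]
  exact mul_le_mul_of_nonneg_left h (Nat.cast_nonneg _)

theorem lp_nv (w : InfinitePlace L) (Z : L) : lp (nv (.inl w) Z) = w.mult * max 0 (Real.log (w Z)) := by
  unfold lp nv
  rw [Real.log_pow, mul_max_of_nonneg _ _ (Nat.cast_nonneg _), mul_zero]

/-- Size of `η` at the infinite places. -/
theorem eta_inf (w : InfinitePlace L) {η Z : L} (hZ : Z ≠ 0) (h : η ^ 2 + 1 = 2 * Z * η) :
    lp (nv (.inl w) Z) ≤ |Real.log (nv (.inl w) η)| ∧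
    |Real.log (nv (.inl w) η)| ≤ 2 * Real.log 3 + lp (nv (.inl w) Z) := by
  have hη := eta_ne_zero h
  have ha : 0 < w η := InfinitePlace.pos_iff.mpr hη
  have hb : 0 < w Z := InfinitePlace.pos_iff.mpr hZ
  set a := w η
  set b := w Z
  have hw2 : w (2 : L) = 2 := by simpa using InfinitePlace.map_natCast w 2
  have hadd : ∀ x y : L, w (x + y) ≤ w x + w y := fun x y => w.1.add_le x y
  have e1 : w (η ^ 2) = a ^ 2 := map_pow w η 2
  have e2 : w (2 * Z * η) = 2 * b * a := by rw [map_mul, map_mul, hw2]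
  have e3 : w (1 : L) = 1 := map_one w
  have hneg : ∀ x : L, w (-x) = w x := fun x => w.1.map_neg x
  have h1 : 2 * b * a ≤ a ^ 2 + 1 := by
    rw [← e2, ← h, ← e1, ← e3]; exact hadd _ _
  have h2 : a ^ 2 ≤ 2 * b * a + 1 := by
    rw [← e1, show η ^ 2 = 2 * Z * η + (-1) by rw [← h]; ring, ← e2]
    refine (hadd _ _).trans ?_
    rw [hneg, e3]
  have h3 : 1 ≤ 2 * b * a + a ^ 2 := by
    have : (1 : L) = 2 * Z * η + (-(η ^ 2)) := by rw [← h]; ring
    calc (1 : ℝ) = w (2 * Z * η + (-(η ^ 2))) := by rw [← this, e3]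
      _ ≤ _ := by
        refine (hadd _ _).trans ?_
        rw [hneg, e1, e2]
  -- bounds on `|log a|`
  have hlow : Real.log b ≤ |Real.log a| := by
    rcases le_total 1 a with h5 | h5
    · have : b ≤ a := by nlinarith
      rw [abs_of_nonneg (Real.log_nonneg h5)]
      exact Real.log_le_log hb this
    · have : b ≤ a⁻¹ := by
        rw [← one_div, le_div_iff₀ ha]
        nlinarith
      rw [abs_of_nonpos (Real.log_nonpos ha.le h5), ← Real.log_inv]
      exact Real.log_le_log hb this
  have hup : |Real.log a| ≤ Real.log (2 * b + 1) := by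
    rcases le_total 1 a with h5 | h5
    · have : a ≤ 2 * b + 1 := by
        by_contra hcon
        push Not at hcon
        nlinarith
      rw [abs_of_nonneg (Real.log_nonneg h5)]
      exact Real.log_le_log ha this
    · have : a⁻¹ ≤ 2 * b + 1 := by
        rw [← one_div, div_le_iff₀ ha]
        nlinarith
      rw [abs_of_nonpos (Real.log_nonpos ha.le h5), ← Real.log_inv]
      exact Real.log_le_log (inv_pos.mpr ha) this
  have hup2 : Real.log (2 * b + 1) ≤ Real.log 3 + max 0 (Real.log b) := by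
    rcases le_total 1 b with h5 | h5
    · rw [max_eq_right (Real.log_nonneg h5), ← Real.log_mul (by norm_num) hb.ne']
      exact Real.log_le_log (by positivity) (by linarith)
    · rw [max_eq_left (Real.log_nonpos hb.le h5), add_zero]
      exact Real.log_le_log (by positivity) (by linarith)
  have hnv : |Real.log (nv (.inl w) η)| = w.mult * |Real.log a| := by
    change |Real.log (a ^ w.mult)| = _
    rw [Real.log_pow, abs_mul, Nat.abs_cast]
  have hm0 : (0 : ℝ) ≤ w.mult := Nat.cast_nonneg _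
  have hm2 : (w.mult : ℝ) ≤ 2 := by exact_mod_cast mult_le_two w
  rw [hnv, lp_nv]
  constructor
  · exact mul_le_mul_of_nonneg_left (max_le (abs_nonneg _) hlow) hm0
  · have h6 : |Real.log a| ≤ Real.log 3 + max 0 (Real.log b) := hup.trans hup2
    have h7 : (0 : ℝ) ≤ Real.log 3 := Real.log_nonneg (by norm_num)
    calc (w.mult : ℝ) * |Real.log a| ≤ w.mult * (Real.log 3 + max 0 (Real.log b)) :=
          mul_le_mul_of_nonneg_left h6 hm0
      _ = w.mult * Real.log 3 + w.mult * max 0 (Real.log b) := by ring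
      _ ≤ _ := by
        have := mul_le_mul_of_nonneg_right hm2 h7
        linarith

/-- The sum of the logarithms of `η` over the infinite places vanishes. -/
theorem sum_log_eta (z : 𝓞 k) {η : L} (h : η ^ 2 + 1 = 2 * algebraMap k L z * η) :
    ∑ w : InfinitePlace L, Real.log (nv (.inl w) η) = 0 := by
  have h1 := product_formula_log (eta_ne_zero h)
  have h2 : ∑ᶠ w : FinitePlace L, Real.log (nv (.inr w) η) = 0 := by
    simp_rw [fun w : FinitePlace L => eta_fin w z h, Real.log_one]
    exact finsum_zero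
  linarith

/-- The point with parameter `y`. -/
def pt (c d : Fin 2 → k) (y : L) : Fin 2 → L :=
  fun j => y * algebraMap k L (c j) + (1 - y) * algebraMap k L (d j)

omit [NumberField k] [NumberField L] in
theorem ev_pt (l c d : Fin 2 → k) (y : L) :
    ev (cst l) (pt c d y) = y * algebraMap k L (ev l c) + (1 - y) * algebraMap k L (ev l d) := by
  simp only [ev, cst, pt, Fin.sum_univ_two, map_add, map_mul]
  ring

/-- the relevant constants -/
noncomputable def cs (c d : Fin 2 → k) (a b : k) : Fin 7 → k := ![c 0, c 1, d 0, d 1, a⁻¹, b⁻¹, 2⁻¹]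

/-- total size of the constants at a finite place -/
noncomputable def TT (c d : Fin 2 → k) (a b : k) (w : FinitePlace L) : ℝ :=
  ∑ i, lp (nv (.inr w) (algebraMap k L (cs c d a b i)))

theorem lp_le_TT (c d : Fin 2 → k) (a b : k) (w : FinitePlace L) (i : Fin 7) :
    lp (nv (.inr w) (algebraMap k L (cs c d a b i))) ≤ TT c d a b w :=
  Finset.single_le_sum (f := fun i => lp (nv (.inr w) (algebraMap k L (cs c d a b i))))
    (fun _ _ => lp_nonneg _) (Finset.mem_univ i)

theorem lp2_le_TT (c d : Fin 2 → k) (a b : k) (w : FinitePlace L) (i j : Fin 7) (hij : i ≠ j) :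
    lp (nv (.inr w) (algebraMap k L (cs c d a b i))) + lp (nv (.inr w) (algebraMap k L (cs c d a b j)))
      ≤ TT c d a b w := by
  classical
  have := Finset.sum_le_sum_of_subset_of_nonneg (f := fun i => lp (nv (.inr w) (algebraMap k L (cs c d a b i))))
    (Finset.subset_univ ({i, j} : Finset (Fin 7))) (fun _ _ _ => lp_nonneg _)
  rwa [Finset.sum_pair hij] at this

theorem TT_nonneg (c d : Fin 2 → k) (a b : k) (w : FinitePlace L) : 0 ≤ TT c d a b w :=
  Finset.sum_nonneg fun _ _ => lp_nonneg _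

theorem nv_le_exp (w : FinitePlace L) (t : L) (T : ℝ) (h : lp (nv (.inr w) t) ≤ T) :
    nv (.inr w) t ≤ Real.exp T := by
  rcases (nv_nonneg (.inr w) t).eq_or_lt with h0 | h0
  · rw [← h0]; exact (Real.exp_pos _).le
  · rw [← Real.log_le_iff_le_exp h0]
    exact (log_le_lp _).trans h

theorem log_sn_pt_le (c d : Fin 2 → k) (a b : k) (w : FinitePlace L) (y : L)
    (h1 : nv (.inr w) y ≤ 1) (h2 : nv (.inr w) (1 - y) ≤ 1) (hx : pt c d y ≠ 0) :
    Real.log (sn (.inr w) (pt c d y)) ≤ TT c d a b w := by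
  rw [Real.log_le_iff_le_exp (sn_pos _ hx)]
  refine sn_le _ _ _ (Real.exp_pos _).le fun j => ?_
  have hadd : ∀ x y : L, nv (.inr w) (x + y) ≤ max (nv (.inr w) x) (nv (.inr w) y) := fun x y =>
    FinitePlace.add_le w x y
  have hc : nv (.inr w) (algebraMap k L (c j)) ≤ Real.exp (TT c d a b w) := by
    apply nv_le_exp
    fin_cases j
    · exact lp_le_TT c d a b w 0
    · exact lp_le_TT c d a b w 1
  have hd : nv (.inr w) (algebraMap k L (d j)) ≤ Real.exp (TT c d a b w) := by
    apply nv_le_exp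
    fin_cases j
    · exact lp_le_TT c d a b w 2
    · exact lp_le_TT c d a b w 3
  unfold pt
  refine (hadd _ _).trans (max_le ?_ ?_)
  · rw [nv_mul]
    calc _ ≤ 1 * Real.exp (TT c d a b w) := mul_le_mul h1 hc (nv_nonneg _ _) zero_le_one
      _ = _ := one_mul _
  · rw [nv_mul]
    calc _ ≤ 1 * Real.exp (TT c d a b w) := mul_le_mul h2 hd (nv_nonneg _ _) zero_le_one
      _ = _ := one_mul _

end

end Pool.Agent.Helper65.Vojta
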