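import Mathlib
import Pool.Agent.Helper65.Vojta.Local

/-!
Global estimates: heights and sums of local terms for the points `pt c d (-η²)`.
-/

set_option linter.unusedSectionVars false
set_option linter.unusedVariables false

namespace Pool.Agent.Helper65.Vojta

open NumberField Finset Pool.Agent.Helper64.Vojta

universe u v

section

variable {k : Type u} [Field k] [NumberField k]

/-- archimedean size of `z` in `L` -/
noncomputable def asz (L : Type v) [Field L] [NumberField L] [Algebra k L] (z : k) : ℝ :=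
  ∑ w : InfinitePlace L, lp (nv (.inl w) (algebraMap k L z))

/-- Dual vectors for three pairwise non-proportional forms. -/
structure Dual (l0 l1 l2 c d : Fin 2 → k) (a b : k) : Prop where
  a0 : a ≠ 0
  b0 : b ≠ 0
  h0c : ev l0 c = a
  h0d : ev l0 d = 0
  h1c : ev l1 c = 0
  h1d : ev l1 d = b
  h2c : ev l2 c = 1
  h2d : ev l2 d = 1

theorem exists_dual (l0 l1 l2 : Fin 2 → k) (h01 : l0 0 * l1 1 ≠ l0 1 * l1 0)
    (h02 : l0 0 * l2 1 ≠ l0 1 * l2 0) (h12 : l1 0 * l2 1 ≠ l1 1 * l2 0) :
    ∃ (c d : Fin 2 → k) (a b : k), Dual l0 l1 l2 c d a b := by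
  -- `c` spans the kernel of `l1`, `d` the kernel of `l0`
  set s : k := l2 0 * l1 1 - l2 1 * l1 0 with hs
  set t : k := l2 0 * l0 1 - l2 1 * l0 0 with ht
  have hs0 : s ≠ 0 := by
    intro h0; apply h12; linear_combination (-1 : k) * (hs.symm.trans h0)
  have ht0 : t ≠ 0 := by
    intro h0; apply h02; linear_combination (-1 : k) * (ht.symm.trans h0)
  refine ⟨![l1 1 / s, -l1 0 / s], ![l0 1 / t, -l0 0 / t], (l0 0 * l1 1 - l0 1 * l1 0) / s,
    (l1 0 * l0 1 - l1 1 * l0 0) / t, ?_, ?_, ?_, ?_, ?_, ?_, ?_, ?_⟩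
  · exact div_ne_zero (sub_ne_zero.mpr h01) hs0
  · refine div_ne_zero (sub_ne_zero.mpr ?_) ht0
    intro h; apply h01; linear_combination (-1 : k) * h
  all_goals simp only [ev, Fin.sum_univ_two, Matrix.cons_val_zero, Matrix.cons_val_one]
  · ring
  · field_simp; ring
  · field_simp; ring
  · ring
  · have : l2 0 * (l1 1 / s) + l2 1 * (-l1 0 / s) = s / s := by rw [hs]; ring
    rw [this, div_self hs0]
  · have : l2 0 * (l0 1 / t) + l2 1 * (-l0 0 / t) = t / t := by rw [ht]; ring
    rw [this, div_self ht0]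

theorem inf_count {L : Type v} [Field L] [NumberField L] [Algebra k L] (hr : Module.finrank k L ≤ 2) :
    (Fintype.card (InfinitePlace L) : ℝ) ≤ (Module.finrank ℚ k * 2 : ℕ) := by
  exact_mod_cast card_inf_le' hr

/-- The main estimates. -/
theorem estimates (S : Finset (Pl k)) (hS : ∀ v : InfinitePlace k, Sum.inl v ∈ S)
    (l0 l1 l2 c d : Fin 2 → k) (a b : k) (hD : Dual l0 l1 l2 c d a b) :
    ∃ C : ℝ, 0 ≤ C ∧ ∀ (L : Type v) [Field L] [NumberField L] [Algebra k L], Module.finrank k L ≤ 2 →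
      ∀ (z : 𝓞 k) (η : L), z ≠ 0 → (∀ v : FinitePlace k, Sum.inr v ∉ S → v (z : k) = 1) →
      η ^ 2 + 1 = 2 * algebraMap k L z * η →
      pt c d (-η ^ 2) ≠ 0 ∧ ev (cst l0) (pt c d (-η ^ 2)) ≠ 0 ∧ ev (cst l1) (pt c d (-η ^ 2)) ≠ 0 ∧
      ev (cst l2) (pt c d (-η ^ 2)) ≠ 0 ∧
      Height.logHeight (pt c d (-η ^ 2)) - C ≤ ∑ w ∈ up L S, loc w (cst l0) (pt c d (-η ^ 2)) ∧
      Height.logHeight (pt c d (-η ^ 2)) - C ≤ ∑ w ∈ up L S, loc w (cst l1) (pt c d (-η ^ 2)) ∧
      Height.logHeight (pt c d (-η ^ 2)) - C ≤ ∑ w ∈ up L S, loc w (cst l2) (pt c d (-η ^ 2)) ∧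
      asz L (z : k) - C ≤ Height.logHeight (pt c d (-η ^ 2)) ∧
      Height.logHeight (pt c d (-η ^ 2)) ≤ 2 * asz L (z : k) + C := by
  classical
  obtain ⟨Cf, hCf0, hCf⟩ := fin_consts.{u, v} (cs c d a b) 2
  obtain ⟨Cl, hCl0, hCl⟩ := liouville_k.{u, v} l2 2
  obtain ⟨B, hB1, hB⟩ := exists_bound_fin.{u, v} (fun s : Fin 2 × Fin 2 => if s.1 = 0 then l0 s.2 else l2 s.2) 2
  obtain ⟨B', hB1', hB'⟩ := exists_bound_fin.{u, v} (fun s : Fin 2 × Fin 2 => if s.1 = 0 then c s.2 else d s.2) 2
  obtain ⟨Ca, hCa0, hCa⟩ := abs_log_const.{u, v} a hD.a0 2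
  have hlB : 0 ≤ Real.log B := Real.log_nonneg hB1
  have hlB' : 0 ≤ Real.log B' := Real.log_nonneg hB1'
  have hl9 : 0 ≤ Real.log 9 := Real.log_nonneg (by norm_num)
  have hl3 : 0 ≤ Real.log 3 := Real.log_nonneg (by norm_num)
  set N : ℝ := ((Module.finrank ℚ k * 2 : ℕ) : ℝ) with hN
  have hN0 : 0 ≤ N := Nat.cast_nonneg _
  set C1 : ℝ := Real.log 9 + Real.log B + Ca with hC1
  have hC10 : 0 ≤ C1 := by positivity
  set C2 : ℝ := Real.log 9 + Real.log B' + 4 * Real.log 3 with hC2
  have hC20 : 0 ≤ C2 := by positivity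
  refine ⟨2 * Cf + (Cl * (1 + N) + C1 * N) + (C2 * N + Cf), by positivity, ?_⟩
  intro L _ _ _ hr z η hz hzS h
  have hη := eta_ne_zero h
  have hzL : algebraMap k L z ≠ 0 := by simpa using hz
  set y : L := -η ^ 2 with hy
  have hy0 : y ≠ 0 := neg_ne_zero.mpr (pow_ne_zero 2 hη)
  have h1y : 1 - y = 2 * algebraMap k L z * η := by rw [← h, hy]; ring
  have h1y0 : 1 - y ≠ 0 := by
    rw [h1y]; exact mul_ne_zero (mul_ne_zero two_ne_zero hzL) hη
  set x := pt c d y with hx
  have e0 : ev (cst l0) x = y * algebraMap k L a := by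
    rw [hx, ev_pt, hD.h0c, hD.h0d]; simp
  have e1 : ev (cst l1) x = (1 - y) * algebraMap k L b := by
    rw [hx, ev_pt, hD.h1c, hD.h1d]; simp
  have e2 : ev (cst l2) x = 1 := by
    rw [hx, ev_pt, hD.h2c, hD.h2d]; simp
  have haL : algebraMap k L a ≠ 0 := by simpa using hD.a0
  have hbL : algebraMap k L b ≠ 0 := by simpa using hD.b0
  have n0 : ev (cst l0) x ≠ 0 := by rw [e0]; exact mul_ne_zero hy0 haL
  have n1 : ev (cst l1) x ≠ 0 := by rw [e1]; exact mul_ne_zero h1y0 hbL
  have n2 : ev (cst l2) x ≠ 0 := by rw [e2]; exact one_ne_zero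
  have hx0 : x ≠ 0 := by
    intro h0
    apply n2
    rw [h0]
    simp [ev]
  have hy1 : ∀ w : FinitePlace L, nv (.inr w) y = 1 := by
    intro w
    rw [hy, nv_neg, sq, nv_mul, eta_fin w z h, one_mul]
  have h1y1 : ∀ w : FinitePlace L, nv (.inr w) (1 - y) = nv (.inr w) (2 : L) * nv (.inr w) (algebraMap k L z) := by
    intro w
    rw [h1y, nv_mul, nv_mul, eta_fin w z h, mul_one]
  have h1yle : ∀ w : FinitePlace L, nv (.inr w) (1 - y) ≤ 1 := by
    intro w
    rw [h1y1]
    exact mul_le_one₀ (nv_two_le w) (nv_nonneg _ _) (nv_int_le w z)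
  have hsn : ∀ w : FinitePlace L, Real.log (sn (.inr w) x) ≤ TT c d a b w := fun w =>
    log_sn_pt_le c d a b w y (hy1 w).le (h1yle w) hx0
  have hTT : ∀ F : Finset (FinitePlace L), ∑ w ∈ F, TT c d a b w ≤ Cf := fun F => hCf L hr F
  -- finite places outside `S`
  have hout : ∀ (l : Fin 2 → k), (∀ w : FinitePlace L, Sum.inr w ∉ up L S →
        -Real.log (nv (.inr w) (ev (cst l) x)) ≤ TT c d a b w) →
      ∀ F : Finset (FinitePlace L), (∀ w ∈ F, Sum.inr w ∉ up L S) →
      ∑ w ∈ F, (Real.log (sn (.inr w) x) - Real.log (nv (.inr w) (ev (cst l) x))) ≤ 2 * Cf := by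
    intro l hl F hF
    calc ∑ w ∈ F, (Real.log (sn (.inr w) x) - Real.log (nv (.inr w) (ev (cst l) x)))
        ≤ ∑ w ∈ F, (TT c d a b w + TT c d a b w) := Finset.sum_le_sum fun w hw => by
          have := hl w (hF w hw)
          have := hsn w
          linarith
      _ = ∑ w ∈ F, TT c d a b w + ∑ w ∈ F, TT c d a b w := Finset.sum_add_distrib
      _ ≤ 2 * Cf := by linarith [hTT F]
  have hL0 : ∀ w : FinitePlace L, Sum.inr w ∉ up L S →
        -Real.log (nv (.inr w) (ev (cst l0) x)) ≤ TT c d a b w := by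
    intro w _
    rw [e0, nv_mul, hy1, one_mul, ← Real.log_inv, ← nv_inv, ← map_inv₀]
    exact (log_le_lp _).trans (lp_le_TT c d a b w 4)
  have hL1 : ∀ w : FinitePlace L, Sum.inr w ∉ up L S →
        -Real.log (nv (.inr w) (ev (cst l1) x)) ≤ TT c d a b w := by
    intro w hw
    rw [e1, nv_mul, h1y1, eq_one_of_notMem hzS w hw, mul_one,
      Real.log_mul (nv_pos _ two_ne_zero).ne' (nv_pos _ hbL).ne']
    have g1 := log_le_lp (nv (.inr w) (algebraMap k L b⁻¹))
    have g2 := log_le_lp (nv (.inr w) (algebraMap k L (2 : k)⁻¹))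
    have g3 : Real.log (nv (.inr w) (algebraMap k L b⁻¹)) = -Real.log (nv (.inr w) (algebraMap k L b)) := by
      rw [map_inv₀, nv_inv, Real.log_inv]
    have g4 : Real.log (nv (.inr w) (algebraMap k L (2 : k)⁻¹)) = -Real.log (nv (.inr w) (2 : L)) := by
      rw [map_inv₀, nv_inv, Real.log_inv, map_ofNat]
    have g5 := lp2_le_TT c d a b w 5 6 (by decide)
    have g6 : cs c d a b 5 = b⁻¹ := rfl
    have g7 : cs c d a b 6 = (2 : k)⁻¹ := rfl
    rw [g6, g7] at g5
    linarith
  have hL2 : ∀ w : FinitePlace L, Sum.inr w ∉ up L S →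
        -Real.log (nv (.inr w) (ev (cst l2) x)) ≤ TT c d a b w := by
    intro w _
    rw [e2, nv_one, Real.log_one, neg_zero]
    exact TT_nonneg _ _ _ _ _
  have hWinf : ∀ w : InfinitePlace L, Sum.inl w ∈ up L S := inl_mem_up hS
  have R0 := sum_loc_ge (cst l0) x hx0 n0 (up L S) hWinf (2 * Cf) (hout l0 hL0)
  have R1 := sum_loc_ge (cst l1) x hx0 n1 (up L S) hWinf (2 * Cf) (hout l1 hL1)
  have R2 := sum_loc_ge (cst l2) x hx0 n2 (up L S) hWinf (2 * Cf) (hout l2 hL2)
  have hcard : (Fintype.card (InfinitePlace L) : ℝ) ≤ N := inf_count hr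
  -- lower bound of the height
  have hbd : ∀ (w : InfinitePlace L) (l : Fin 2 → k), (∀ i, nv (.inl w) (algebraMap k L (l i)) ≤ B) →
      Real.log (nv (.inl w) (ev (cst l) x)) ≤ Real.log 9 + Real.log B + Real.log (sn (.inl w) x) := by
    intro w l hl
    rcases eq_or_ne (ev (cst l) x) 0 with h0 | h0
    · have hs1 : 0 < sn (.inl w) x := sn_pos _ hx0
      -- crude bound is not needed in this case; use positivity of the right side through `l2`
      have g1 := nv_sum_le (.inl w : Pl L) Finset.univ (fun i => (cst l2 : Fin 2 → L) i * x i) (B * sn (.inl w) x)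
        (mul_nonneg (by linarith) hs1.le) (fun i _ => by
          rw [nv_mul]
          exact mul_le_mul (by simpa [cst] using hB L hr (.inl w) (1, i)) (le_sn _ _ _) (nv_nonneg _ _) (by linarith))
      have g2 : nv (.inl w) (1 : L) ≤ 9 * (B * sn (.inl w) x) := by
        have : ∑ i, (cst l2 : Fin 2 → L) i * x i = 1 := e2
        rw [this] at g1
        simpa [Finset.card_univ, Fintype.card_fin, show ((2 : ℝ) + 1) ^ 2 = 9 by norm_num] using g1
      rw [h0, nv_zero, Real.log_zero]
      rw [nv_one] at g2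
      have g3 := Real.log_le_log one_pos g2
      rw [Real.log_one, Real.log_mul (by norm_num) (by positivity), Real.log_mul (by positivity) hs1.ne'] at g3
      linarith
    · have hs1 : 0 < sn (.inl w) x := sn_pos _ hx0
      have g1 := nv_sum_le (.inl w : Pl L) Finset.univ (fun i => (cst l : Fin 2 → L) i * x i) (B * sn (.inl w) x)
        (mul_nonneg (by linarith) hs1.le) (fun i _ => by
          rw [nv_mul]
          exact mul_le_mul (hl i) (le_sn _ _ _) (nv_nonneg _ _) (by linarith))
      have g2 : nv (.inl w) (ev (cst l) x) ≤ 9 * (B * sn (.inl w) x) := by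
        simpa [ev, Finset.card_univ, Fintype.card_fin, show ((2 : ℝ) + 1) ^ 2 = 9 by norm_num] using g1
      have g3 := Real.log_le_log (nv_pos _ h0) g2
      rw [Real.log_mul (by norm_num) (by positivity), Real.log_mul (by positivity) hs1.ne'] at g3
      linarith
  have hsnlow : ∀ w : InfinitePlace L, |Real.log (nv (.inl w) η)| + Real.log (nv (.inl w) η) - C1
      ≤ Real.log (sn (.inl w) x) := by
    intro w
    have g0 := hbd w l0 (fun i => by simpa using hB L hr (.inl w) (0, i))
    have g2 := hbd w l2 (fun i => by simpa using hB L hr (.inl w) (1, i))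
    rw [e0, nv_mul, Real.log_mul (nv_pos _ hy0).ne' (nv_pos _ haL).ne', hy, nv_neg, sq, nv_mul,
      Real.log_mul (nv_pos _ hη).ne' (nv_pos _ hη).ne'] at g0
    rw [e2, nv_one, Real.log_one] at g2
    have g3 := hCa L hr (.inl w)
    rw [abs_le] at g3
    rcases le_total 0 (Real.log (nv (.inl w) η)) with h5 | h5
    · rw [abs_of_nonneg h5]; linarith [g3.1]
    · rw [abs_of_nonpos h5]; linarith
  have hlow : asz L (z : k) - (Cl * (1 + N) + C1 * N) ≤ Height.logHeight x := by
    have g1 := hCl L hr x hx0 n2 ((Finset.univ : Finset (InfinitePlace L)).map ⟨Sum.inl, Sum.inl_injective⟩)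
    rw [Finset.sum_map, Finset.card_map, Finset.card_univ] at g1
    have g2 : ∀ w : InfinitePlace L, loc ((⟨Sum.inl, Sum.inl_injective⟩ : InfinitePlace L ↪ Pl L) w) (cst l2) x
        = Real.log (sn (.inl w) x) := by
      intro w
      change Real.log (sn (.inl w) x) - Real.log (nv (.inl w) (ev (cst l2) x)) = _
      rw [e2, nv_one, Real.log_one, sub_zero]
    have g3 : ∑ w : InfinitePlace L, (|Real.log (nv (.inl w) η)| + Real.log (nv (.inl w) η) - C1)
        ≤ Height.logHeight x + Cl * (1 + Fintype.card (InfinitePlace L)) := by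
      refine le_trans (Finset.sum_le_sum fun w _ => hsnlow w) ?_
      refine le_trans (le_of_eq (Finset.sum_congr rfl fun w _ => (g2 w).symm)) g1
    rw [Finset.sum_sub_distrib, Finset.sum_add_distrib, sum_log_eta z h, add_zero, Finset.sum_const,
      Finset.card_univ, nsmul_eq_mul] at g3
    have g4 : asz L (z : k) ≤ ∑ w : InfinitePlace L, |Real.log (nv (.inl w) η)| :=
      Finset.sum_le_sum fun w _ => (eta_inf w hzL h).1
    nlinarith
  have hup : Height.logHeight x ≤ 2 * asz L (z : k) + (C2 * N + Cf) := by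
    rw [logHeight_eq hx0]
    have hinf : ∀ w : InfinitePlace L, Real.log (sn (.inl w) x) ≤ 2 * lp (nv (.inl w) (algebraMap k L z)) + C2 := by
      intro w
      set P := lp (nv (.inl w) (algebraMap k L z)) with hP
      have hP0 : 0 ≤ P := lp_nonneg _
      have g1 := (eta_inf w hzL h).2
      have g2 : Real.log (nv (.inl w) η) ≤ 2 * Real.log 3 + P := (le_abs_self _).trans g1
      have g3 : nv (.inl w) y ≤ Real.exp (4 * Real.log 3 + 2 * P) := by
        rw [← Real.log_le_iff_le_exp (nv_pos _ hy0), hy, nv_neg, sq, nv_mul,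
          Real.log_mul (nv_pos _ hη).ne' (nv_pos _ hη).ne']
        linarith
      have g4 : nv (.inl w) (1 - y) ≤ Real.exp (4 * Real.log 3 + 2 * P) := by
        rw [← Real.log_le_iff_le_exp (nv_pos _ h1y0), h1y, nv_mul, nv_mul,
          Real.log_mul (mul_pos (nv_pos _ two_ne_zero) (nv_pos _ hzL)).ne' (nv_pos _ hη).ne',
          Real.log_mul (nv_pos _ two_ne_zero).ne' (nv_pos _ hzL).ne']
        have g5 : Real.log (nv (.inl w) (2 : L)) ≤ 2 * Real.log 3 := by
          have hw2 : w (2 : L) = 2 := by simpa using InfinitePlace.map_natCast w 2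
          change Real.log (w (2 : L) ^ w.mult) ≤ _
          rw [hw2, Real.log_pow]
          have m2 : (w.mult : ℝ) ≤ 2 := by exact_mod_cast mult_le_two w
          have l2 : Real.log 2 ≤ Real.log 3 := Real.log_le_log (by norm_num) (by norm_num)
          have l20 : 0 ≤ Real.log 2 := Real.log_nonneg (by norm_num)
          have m0 : (0 : ℝ) ≤ w.mult := Nat.cast_nonneg _
          nlinarith
        have g6 : Real.log (nv (.inl w) (algebraMap k L z)) ≤ P := log_le_lp _
        linarith
      rw [Real.log_le_iff_le_exp (sn_pos _ hx0)]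
      have g7 : ∀ j, nv (.inl w) (x j) ≤ 9 * (B' * Real.exp (4 * Real.log 3 + 2 * P)) := by
        intro j
        have g8 := nv_sum_le (.inl w : Pl L) (Finset.univ : Finset (Fin 2))
          (![y * algebraMap k L (c j), (1 - y) * algebraMap k L (d j)])
          (B' * Real.exp (4 * Real.log 3 + 2 * P)) (by positivity) (fun i _ => by
            fin_cases i
            · change nv (.inl w) (y * algebraMap k L (c j)) ≤ _
              rw [nv_mul, mul_comm]
              exact mul_le_mul (by simpa using hB' L hr (.inl w) (0, j)) g3 (nv_nonneg _ _) (by linarith)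
            · change nv (.inl w) ((1 - y) * algebraMap k L (d j)) ≤ _
              rw [nv_mul, mul_comm]
              exact mul_le_mul (by simpa using hB' L hr (.inl w) (1, j)) g4 (nv_nonneg _ _) (by linarith))
        rw [Fin.sum_univ_two] at g8
        have g10 : x j = y * algebraMap k L (c j) + (1 - y) * algebraMap k L (d j) := rfl
        rw [g10]
        simpa [Finset.card_univ, Fintype.card_fin, show ((2 : ℝ) + 1) ^ 2 = 9 by norm_num] using g8
      have g9 : 9 * (B' * Real.exp (4 * Real.log 3 + 2 * P)) = Real.exp (2 * P + C2) := by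
        rw [← Real.exp_log (show (0 : ℝ) < 9 by norm_num), ← Real.exp_log (show (0 : ℝ) < B' by linarith),
          ← Real.exp_add, ← Real.exp_add, hC2]
        congr 1
        ring
      rw [← g9]
      exact sn_le _ _ _ (by positivity) g7
    have h1 : ∑ w : InfinitePlace L, Real.log (sn (.inl w) x) ≤ 2 * asz L (z : k) + C2 * N := by
      calc ∑ w : InfinitePlace L, Real.log (sn (.inl w) x)
          ≤ ∑ w : InfinitePlace L, (2 * lp (nv (.inl w) (algebraMap k L z)) + C2) :=
            Finset.sum_le_sum fun w _ => hinf w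
        _ = 2 * asz L (z : k) + Fintype.card (InfinitePlace L) * C2 := by
            rw [Finset.sum_add_distrib, ← Finset.mul_sum, Finset.sum_const, Finset.card_univ, nsmul_eq_mul]
            rfl
        _ ≤ _ := by nlinarith
    have h2 : ∑ᶠ w : FinitePlace L, Real.log (sn (.inr w) x) ≤ Cf := by
      have hfs : (Function.support fun w : FinitePlace L => Real.log (sn (.inr w) x)).Finite :=
        log_support _ (fin_support_sn hx0)
      rw [finsum_eq_sum_of_support_subset _ (s := hfs.toFinset) (by simp)]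
      exact (Finset.sum_le_sum fun w _ => hsn w).trans (hTT _)
    linarith
  have q1 : 0 ≤ Cl * (1 + N) + C1 * N := by positivity
  have q2 : 0 ≤ C2 * N + Cf := by positivity
  refine ⟨hx0, n0, n1, n2, ?_, ?_, ?_, ?_, ?_⟩
  · linarith
  · linarith
  · linarith
  · linarith
  · linarith

end

end Pool.Agent.Helper65.Vojta
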