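import Mathlib
import Pool.Agent.Helper65.Vojta.Const

/-!
Upper bound for the discriminant of a quadratic extension.
-/

namespace Pool.Agent.Helper65.Vojta

open NumberField Finset Polynomial Pool.Agent.Helper64.Vojta

universe u v

section

variable {k : Type u} [Field k] [NumberField k] {L : Type v} [Field L] [NumberField L] [Algebra k L]

theorem minpoly_quad (h2 : Module.finrank k L = 2) (δ : 𝓞 k) (θ : 𝓞 L)
    (hθ : θ ^ 2 = algebraMap (𝓞 k) (𝓞 L) δ) (hadj : Algebra.adjoin k {(θ : L)} = ⊤) :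
    minpoly (𝓞 k) θ = X ^ 2 - C δ := by
  have hint : IsIntegral (𝓞 k) θ := Algebra.IsIntegral.isIntegral θ
  have hroot : aeval θ (X ^ 2 - C δ : (𝓞 k)[X]) = 0 := by
    simp [hθ]
  have hdvd : minpoly (𝓞 k) θ ∣ X ^ 2 - C δ := minpoly.isIntegrallyClosed_dvd hint hroot
  have hmon : (X ^ 2 - C δ : (𝓞 k)[X]).Monic := monic_X_pow_sub_C δ two_ne_zero
  have hdeg : (X ^ 2 - C δ : (𝓞 k)[X]).natDegree = 2 := natDegree_X_pow_sub_C
  have hmap : minpoly k (θ : L) = (minpoly (𝓞 k) θ).map (algebraMap (𝓞 k) k) :=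
    minpoly.isIntegrallyClosed_eq_field_fractions k L hint
  have hdeg2 : (minpoly (𝓞 k) θ).natDegree = 2 := by
    have h1 : (minpoly k (θ : L)).natDegree = (minpoly (𝓞 k) θ).natDegree := by
      rw [hmap, (minpoly.monic hint).natDegree_map]
    rw [← h1, ← h2]
    have hint' : IsIntegral k (θ : L) := Algebra.IsIntegral.isIntegral _
    rw [← (Algebra.adjoin.powerBasis hint').finrank.trans (Algebra.adjoin.powerBasis_dim hint')]
    rw [hadj]
    exact (Subalgebra.topEquiv (R := k) (A := L)).toLinearEquiv.finrank_eq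
  refine (eq_of_monic_of_dvd_of_natDegree_le (minpoly.monic hint) hmon hdvd ?_).symm
  rw [hdeg, hdeg2]

theorem log_nv_two (L : Type*) [Field L] [NumberField L] :
    ∑ w : InfinitePlace L, Real.log (nv (.inl w) (2 : L)) = Module.finrank ℚ L * Real.log 2 := by
  have h1 : ∀ w : InfinitePlace L, Real.log (nv (.inl w) (2 : L)) = w.mult * Real.log 2 := by
    intro w
    have : w (2 : L) = 2 := by
      have := InfinitePlace.map_natCast w 2
      simpa using this
    simp only [nv, this, Real.log_pow]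
  simp_rw [h1]
  rw [← Finset.sum_mul, ← InfinitePlace.sum_mult_eq (K := L)]
  push_cast
  rfl

theorem log_natCast_nv (L : Type*) [Field L] [NumberField L] (n : ℕ) :
    ∑ w : InfinitePlace L, Real.log (nv (.inl w) (n : L)) = Module.finrank ℚ L * Real.log n := by
  have h1 : ∀ w : InfinitePlace L, Real.log (nv (.inl w) (n : L)) = w.mult * Real.log n := by
    intro w
    simp only [nv, InfinitePlace.map_natCast w n, Real.log_pow]
  simp_rw [h1]
  rw [← Finset.sum_mul, ← InfinitePlace.sum_mult_eq (K := L)]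
  push_cast
  rfl

/-- Upper bound for the discriminant of `k(√δ)`. -/
theorem log_discr_le (h2 : Module.finrank k L = 2) (δ : 𝓞 k) (hδ : δ ≠ 0) (θ : 𝓞 L)
    (hθ : θ ^ 2 = algebraMap (𝓞 k) (𝓞 L) δ) (hadj : Algebra.adjoin k {(θ : L)} = ⊤) :
    Real.log |(discr L : ℝ)| ≤ 2 * Real.log |(discr k : ℝ)| + Module.finrank ℚ L * Real.log 2
      + (1 / 2) * ∑ w : InfinitePlace L, Real.log (nv (.inl w) (algebraMap k L δ)) := by
  have hmp := minpoly_quad h2 δ θ hθ hadj
  have hmem : aeval θ (derivative (minpoly (𝓞 k) θ)) ∈ differentIdeal (𝓞 k) (𝓞 L) :=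
    aeval_derivative_mem_differentIdeal (𝓞 k) k L θ hadj
  have hval : aeval θ (derivative (minpoly (𝓞 k) θ)) = 2 * θ := by
    rw [hmp]
    simp only [derivative_sub, derivative_X_pow, derivative_C, sub_zero, map_mul, aeval_C, map_pow, aeval_X]
    norm_num
    left
    exact map_ofNat _ 2
  rw [hval] at hmem
  have hθ0 : θ ≠ 0 := by
    rintro rfl
    apply hδ
    have h0 : algebraMap (𝓞 k) (𝓞 L) δ = 0 := by rw [← hθ]; ring
    exact (map_eq_zero_iff _ (FaithfulSMul.algebraMap_injective (𝓞 k) (𝓞 L))).mp h0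
  have h2θ : (2 * θ : 𝓞 L) ≠ 0 := mul_ne_zero two_ne_zero hθ0
  have hdvd : Ideal.absNorm (differentIdeal (𝓞 k) (𝓞 L)) ∣ Ideal.absNorm (Ideal.span {2 * θ}) :=
    Ideal.absNorm_dvd_absNorm_of_le ((Ideal.span_singleton_le_iff_mem _).mpr hmem)
  rw [Ideal.absNorm_span_singleton] at hdvd
  have hN0 : (Algebra.norm ℤ (2 * θ : 𝓞 L)).natAbs ≠ 0 :=
    Int.natAbs_ne_zero.mpr (Algebra.norm_ne_zero_iff.mpr h2θ)
  have hle := Nat.le_of_dvd (Nat.pos_of_ne_zero hN0) hdvd
  have h := natAbs_discr_eq_absNorm_differentIdeal_mul_natAbs_discr_pow k (𝓞 k) L (𝓞 L)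
  rw [h2] at h
  have hL : (discr L).natAbs ≠ 0 := Int.natAbs_ne_zero.mpr (discr_ne_zero L)
  have hk : (discr k).natAbs ≠ 0 := Int.natAbs_ne_zero.mpr (discr_ne_zero k)
  have eL : |(discr L : ℝ)| = ((discr L).natAbs : ℝ) := by
    rw [Nat.cast_natAbs, Int.cast_abs]
  have ek : |(discr k : ℝ)| = ((discr k).natAbs : ℝ) := by
    rw [Nat.cast_natAbs, Int.cast_abs]
  have hkpos : (0 : ℝ) < ((discr k).natAbs : ℝ) := by exact_mod_cast Nat.pos_of_ne_zero hk
  have hNpos : (0 : ℝ) < ((Algebra.norm ℤ (2 * θ : 𝓞 L)).natAbs : ℝ) := by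
    exact_mod_cast Nat.pos_of_ne_zero hN0
  have h3 : ((discr L).natAbs : ℝ) ≤ (Algebra.norm ℤ (2 * θ : 𝓞 L)).natAbs * ((discr k).natAbs : ℝ) ^ 2 := by
    rw [h]; push_cast
    exact mul_le_mul_of_nonneg_right (by exact_mod_cast hle) (by positivity)
  have h4 : Real.log ((discr L).natAbs : ℝ) ≤ Real.log ((Algebra.norm ℤ (2 * θ : 𝓞 L)).natAbs : ℝ)
      + 2 * Real.log ((discr k).natAbs : ℝ) := by
    refine (Real.log_le_log (by exact_mod_cast Nat.pos_of_ne_zero hL) h3).trans ?_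
    rw [Real.log_mul hNpos.ne' (by positivity), Real.log_pow]
    push_cast
    exact le_rfl
  -- the norm in terms of the infinite places
  have h5 : Real.log ((Algebra.norm ℤ (2 * θ : 𝓞 L)).natAbs : ℝ)
      = ∑ w : InfinitePlace L, Real.log (nv (.inl w) (((2 * θ : 𝓞 L) : L))) := by
    have hne : ((2 * θ : 𝓞 L) : L) ≠ 0 := by simpa using h2θ
    have e1 : (((Algebra.norm ℤ (2 * θ : 𝓞 L)).natAbs : ℝ)) = ∏ w : InfinitePlace L, nv (.inl w) (((2 * θ : 𝓞 L) : L)) := by
      have := InfinitePlace.prod_eq_abs_norm ((2 * θ : 𝓞 L) : L)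
      rw [show (∏ w : InfinitePlace L, nv (.inl w) (((2 * θ : 𝓞 L) : L)))
        = ∏ w : InfinitePlace L, w ((2 * θ : 𝓞 L) : L) ^ w.mult from rfl, this,
        ← Algebra.coe_norm_int, Nat.cast_natAbs]
      push_cast
      rfl
    rw [e1, Real.log_prod (fun w _ => (nv_pos (.inl w) hne).ne')]
  have h6 : ∀ w : InfinitePlace L, Real.log (nv (.inl w) (((2 * θ : 𝓞 L) : L)))
      = Real.log (nv (.inl w) (2 : L)) + (1 / 2) * Real.log (nv (.inl w) (algebraMap k L δ)) := by
    intro w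
    have hθL : (θ : L) ≠ 0 := by simpa using hθ0
    have e1 : ((2 * θ : 𝓞 L) : L) = 2 * (θ : L) := by push_cast; rfl
    have e2 : algebraMap k L δ = (θ : L) * (θ : L) := by
      have := congrArg (algebraMap (𝓞 L) L) hθ
      rw [map_pow] at this
      rw [← sq]
      exact this.symm
    rw [e1, nv_mul, Real.log_mul (nv_pos _ two_ne_zero).ne' (nv_pos _ hθL).ne', e2, nv_mul,
      Real.log_mul (nv_pos _ hθL).ne' (nv_pos _ hθL).ne']
    ring
  rw [Finset.sum_congr rfl (fun w _ => h6 w), Finset.sum_add_distrib, ← Finset.mul_sum, log_nv_two] at h5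
  rw [eL, ek]
  linarith

end

end Pool.Agent.Helper65.Vojta
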