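import Mathlib
import Pool.Agent.Helper65.Vojta.Disc

/-!
Quadratic extensions generated by the square root of an algebraic integer.
-/

set_option linter.unusedSectionVars false
set_option linter.unusedVariables false

namespace Pool.Agent.Helper65.Vojta

open NumberField Finset Polynomial Pool.Agent.Helper64.Vojta

universe u

section

variable {k : Type u} [Field k] [NumberField k]

theorem exists_quad (δ : 𝓞 k) (h : ¬ IsSquare (δ : k)) :
    ∃ (L : Type u) (_ : Field L) (_ : NumberField L) (_ : Algebra k L) (θ : 𝓞 L),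
      Module.finrank k L = 2 ∧ θ ^ 2 = algebraMap (𝓞 k) (𝓞 L) δ ∧ Algebra.adjoin k {(θ : L)} = ⊤ := by
  set f : k[X] := X ^ 2 - C (δ : k) with hf
  have hirr : Irreducible f := X_pow_sub_C_irreducible_of_prime Nat.prime_two
    (fun b hb => h ⟨b, by rw [← hb, sq]⟩)
  have : Fact (Irreducible f) := ⟨hirr⟩
  have hf0 : f ≠ 0 := hirr.ne_zero
  have : CharZero (AdjoinRoot f) := charZero_of_injective_algebraMap (algebraMap k (AdjoinRoot f)).injective
  have : FiniteDimensional k (AdjoinRoot f) := (AdjoinRoot.powerBasis hf0).finite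
  have : FiniteDimensional ℚ (AdjoinRoot f) := FiniteDimensional.trans ℚ k (AdjoinRoot f)
  have : NumberField (AdjoinRoot f) := { }
  have hroot : (AdjoinRoot.root f) ^ 2 = algebraMap k (AdjoinRoot f) (δ : k) := by
    have h1 := AdjoinRoot.eval₂_root f
    rw [hf] at h1
    simp only [eval₂_sub, eval₂_pow, eval₂_X, eval₂_C] at h1
    exact sub_eq_zero.mp h1
  have hint : IsIntegral ℤ (AdjoinRoot.root f) := by
    have h1 : IsIntegral ℤ ((AdjoinRoot.root f) ^ 2) := by
      rw [hroot]
      exact (RingOfIntegers.isIntegral_coe δ).algebraMap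
    exact IsIntegral.of_pow two_pos h1
  refine ⟨AdjoinRoot f, inferInstance, inferInstance, inferInstance, ⟨AdjoinRoot.root f, hint⟩, ?_, ?_, ?_⟩
  · rw [(AdjoinRoot.powerBasis hf0).finrank, AdjoinRoot.powerBasis_dim, hf, natDegree_X_pow_sub_C]
  · apply RingOfIntegers.ext
    exact hroot
  · exact AdjoinRoot.adjoinRoot_eq_top

end

end Pool.Agent.Helper65.Vojta
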