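import Mathlib
import Pool.Agent.Helper65.Vojta.Defs
import Pool.Agent.Helper65.Vojta.Global
import Pool.Agent.Helper65.Vojta.Quad

/-!
Final assembly.
-/

set_option linter.unusedSectionVars false
set_option linter.unusedVariables false

namespace Pool.Agent.Helper65.Vojta

open NumberField Finset Pool.Agent.Helper64.Vojta

universe u v

section

variable {k : Type u} [Field k] [NumberField k]

theorem log_nv_le_log_sn {L : Type v} [Field L] [NumberField L] (w : Pl L) (x : Fin 2 → L) (j : Fin 2)
    (hj : x j ≠ 0) : Real.log (nv w (x j)) ≤ Real.log (sn w x) :=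
  Real.log_le_log (nv_pos _ hj) (le_sn _ _ _)

/-- the norm of a constant form is not small -/
theorem sn_cst_ge (a : Fin 2 → k) (ha : a ≠ 0) : ∃ C : ℝ, 0 ≤ C ∧
    ∀ (L : Type v) [Field L] [NumberField L] [Algebra k L], Module.finrank k L ≤ 2 →
    ∀ w : Pl L, -C ≤ Real.log (sn w (cst a : Fin 2 → L)) := by
  obtain ⟨j, hj⟩ := Function.ne_iff.mp ha
  have hj' : a j ≠ 0 := hj
  obtain ⟨C, hC0, hC⟩ := abs_log_const.{u, v} (a j) hj' 2
  refine ⟨C, hC0, ?_⟩
  intro L _ _ _ hr w
  have h1 := hC L hr w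
  rw [abs_le] at h1
  have h2 := log_nv_le_log_sn w (cst a : Fin 2 → L) j (by simpa [cst] using hj')
  have h3 : nv w ((cst a : Fin 2 → L) j) = nv w (algebraMap k L (a j)) := rfl
  rw [h3] at h2
  linarith [h1.1]

/-- the height of a constant point is bounded -/
theorem height_const_le (p : Fin 2 → k) (hp : p ≠ 0) : ∃ C : ℝ,
    ∀ (L : Type v) [Field L] [NumberField L] [Algebra k L], Module.finrank k L ≤ 2 →
    Height.logHeight (cst p : Fin 2 → L) ≤ C := by
  obtain ⟨B, hB1, hB⟩ := exists_bound_fin.{u, v} p 2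
  obtain ⟨Cf, hCf0, hCf⟩ := fin_consts.{u, v} p 2
  have hlB : 0 ≤ Real.log B := Real.log_nonneg hB1
  refine ⟨((Module.finrank ℚ k * 2 : ℕ) : ℝ) * Real.log B + Cf, ?_⟩
  intro L _ _ _ hr
  have hpL : (cst p : Fin 2 → L) ≠ 0 := cst_ne_zero hp
  rw [logHeight_eq hpL]
  have h1 : ∑ w : InfinitePlace L, Real.log (sn (.inl w) (cst p : Fin 2 → L))
      ≤ ((Module.finrank ℚ k * 2 : ℕ) : ℝ) * Real.log B := by
    calc ∑ w : InfinitePlace L, Real.log (sn (.inl w) (cst p : Fin 2 → L))
        ≤ ∑ w : InfinitePlace L, Real.log B := Finset.sum_le_sum fun w _ =>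
          Real.log_le_log (sn_pos _ hpL) (sn_le _ _ _ (by linarith) fun i => hB L hr _ i)
      _ = Fintype.card (InfinitePlace L) * Real.log B := by
          rw [Finset.sum_const, Finset.card_univ, nsmul_eq_mul]
      _ ≤ _ := mul_le_mul_of_nonneg_right (inf_count hr) hlB
  have h2 : ∑ᶠ w : FinitePlace L, Real.log (sn (.inr w) (cst p : Fin 2 → L)) ≤ Cf := by
    have hfs : (Function.support fun w : FinitePlace L => Real.log (sn (.inr w) (cst p : Fin 2 → L))).Finite :=
      log_support _ (fin_support_sn hpL)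
    rw [finsum_eq_sum_of_support_subset _ (s := hfs.toFinset) (by simp)]
    refine le_trans (Finset.sum_le_sum fun w _ => ?_) (hCf L hr hfs.toFinset)
    rw [Real.log_le_iff_le_exp (sn_pos _ hpL)]
    refine sn_le _ _ _ (Real.exp_pos _).le fun j => ?_
    refine nv_le_exp w _ _ ?_
    exact Finset.single_le_sum (f := fun i => lp (nv (.inr w) (algebraMap k L (p i))))
      (fun _ _ => lp_nonneg _) (Finset.mem_univ j)
  linarith

/-- points on a form over `k` have bounded height -/
theorem height_le_of_zero (a : Fin 2 → k) (ha : a ≠ 0) : ∃ C : ℝ,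
    ∀ (L : Type v) [Field L] [NumberField L] [Algebra k L], Module.finrank k L ≤ 2 →
    ∀ x : Fin 2 → L, x ≠ 0 → ev (cst a) x = 0 → Height.logHeight x ≤ C := by
  have hp : (![-a 1, a 0] : Fin 2 → k) ≠ 0 := by
    intro h0
    apply ha
    have e0 := congrFun h0 0
    have e1 := congrFun h0 1
    simp at e0 e1
    funext i
    fin_cases i
    · exact e1
    · exact e0
  obtain ⟨C, hC⟩ := height_const_le.{u, v} ![-a 1, a 0] hp
  refine ⟨C, ?_⟩
  intro L _ _ _ hr x hx h0
  have h0' : algebraMap k L (a 0) * x 0 + algebraMap k L (a 1) * x 1 = 0 := by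
    simpa [ev, cst, Fin.sum_univ_two] using h0
  have key : ∃ lam : L, lam ≠ 0 ∧ x = lam • (cst ![-a 1, a 0] : Fin 2 → L) := by
    by_cases ha0 : a 0 = 0
    · have ha1 : a 1 ≠ 0 := by
        intro h1; apply ha; funext i; fin_cases i
        · exact ha0
        · exact h1
      have ha1L : algebraMap k L (a 1) ≠ 0 := by simpa using ha1
      have hx1 : x 1 = 0 := by
        rw [ha0, map_zero, zero_mul, zero_add] at h0'
        exact (mul_eq_zero.mp h0').resolve_left ha1L
      refine ⟨-(x 0) / algebraMap k L (a 1), ?_, ?_⟩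
      · refine div_ne_zero (neg_ne_zero.mpr ?_) ha1L
        intro hx0
        apply hx; funext i; fin_cases i
        · exact hx0
        · exact hx1
      · funext i
        fin_cases i
        · simp [cst]; field_simp
        · simp [cst, ha0, hx1]
    · have ha0L : algebraMap k L (a 0) ≠ 0 := by simpa using ha0
      refine ⟨x 1 / algebraMap k L (a 0), ?_, ?_⟩
      · refine div_ne_zero ?_ ha0L
        intro hx1
        rw [hx1, mul_zero, add_zero] at h0'
        apply hx; funext i; fin_cases i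
        · exact (mul_eq_zero.mp h0').resolve_left ha0L
        · exact hx1
      · funext i
        fin_cases i
        · simp [cst]; field_simp; linear_combination h0'
        · simp [cst]; field_simp
  obtain ⟨lam, hlam, hxe⟩ := key
  rw [hxe, Height.logHeight_smul_eq_logHeight _ hlam]
  exact hC L hr

theorem sum_lamD {L : Type v} [Field L] [NumberField L] [Algebra k L] {q : ℕ} (D : Fin q → Fin 2 → k)
    (S : Finset (Pl k)) (x : Fin 2 → L) :
    ∑ ν ∈ S, lamD D ν x = (∑ i, ∑ w ∈ up L S, wloc w (D i) x) / Module.finrank k L := by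
  unfold lamD
  rw [← Finset.sum_div, ← sum_up, Finset.sum_comm]

/-- Lower bound for the left side from lower bounds for three of the forms. -/
theorem lhs_ge (S : Finset (Pl k)) {q : ℕ} (D : Fin q → Fin 2 → k) (hD0 : ∀ i, D i ≠ 0)
    (T : Finset (Fin q)) (hT : T.card = 3) (C0 : ℝ) (hC0 : 0 ≤ C0) :
    ∃ C : ℝ, 0 ≤ C ∧ ∀ (L : Type v) [Field L] [NumberField L] [Algebra k L], Module.finrank k L ≤ 2 →
      ∀ x : Fin 2 → L, x ≠ 0 → (∀ i, ev (cst (D i)) x ≠ 0) →
      (∀ i ∈ T, Height.logHeight x - C0 ≤ ∑ w ∈ up L S, loc w (cst (D i)) x) →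
      hgt k x - C ≤ lhs D S x := by
  classical
  choose Ci hCi0 hCi using fun i => sn_cst_ge.{u, v} (D i) (hD0 i)
  have hl9 : 0 ≤ Real.log 9 := Real.log_nonneg (by norm_num)
  set U : ℝ := ((2 * S.card : ℕ) : ℝ) with hU
  have hU0 : 0 ≤ U := Nat.cast_nonneg _
  set Cm : Fin q → ℝ := fun i => C0 + U * (Ci i + Real.log 9) with hCm
  have hCm0 : ∀ i, 0 ≤ Cm i := fun i => by
    have := hCi0 i
    simp only [hCm]; positivity
  refine ⟨∑ i, Cm i, Finset.sum_nonneg fun i _ => hCm0 i, ?_⟩
  intro L _ _ _ hr x hx hax hloc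
  have hfin1 : (1 : ℝ) ≤ Module.finrank k L := by exact_mod_cast Module.finrank_pos (R := k) (M := L)
  have hcard : ((up L S).card : ℝ) ≤ U := by
    rw [hU]
    exact_mod_cast (card_up_le (L := L) S).trans (Nat.mul_le_mul_right _ hr)
  have hcard0 : (0 : ℝ) ≤ (up L S).card := Nat.cast_nonneg _
  have hmain : ∀ i, (if i ∈ T then Height.logHeight x else 0) - Cm i ≤ ∑ w ∈ up L S, wloc w (D i) x := by
    intro i
    split_ifs with hi
    · have h1 : ∀ w ∈ up L S, loc w (cst (D i)) x - Ci i ≤ wloc w (D i) x := by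
        intro w _
        have h2 := hCi i L hr w
        unfold wloc loc
        rw [Real.log_div (mul_pos (sn_pos _ (cst_ne_zero (hD0 i))) (sn_pos _ hx)).ne' (nv_pos _ (hax i)).ne',
          Real.log_mul (sn_pos _ (cst_ne_zero (hD0 i))).ne' (sn_pos _ hx).ne']
        linarith
      have h2 := Finset.sum_le_sum h1
      rw [Finset.sum_sub_distrib, Finset.sum_const, nsmul_eq_mul] at h2
      have h3 := hloc i hi
      have h4 := hCi0 i
      have h5 : (up L S).card * Ci i ≤ U * Ci i := mul_le_mul_of_nonneg_right hcard h4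
      have h6 : 0 ≤ U * Real.log 9 := by positivity
      simp only [hCm]
      linarith [h2, h3, h5, h6]
    · have h1 : ∀ w ∈ up L S, -Real.log 9 ≤ wloc w (D i) x := by
        intro w _
        have := wloc_ge (D i) (hD0 i) x hx (hax i) w
        rwa [show ((2 : ℕ) + 1 : ℝ) ^ 2 = 9 by norm_num] at this
      have h2 := Finset.sum_le_sum h1
      rw [Finset.sum_const, nsmul_eq_mul] at h2
      have h4 := hCi0 i
      have h5 : (up L S).card * Real.log 9 ≤ U * Real.log 9 := mul_le_mul_of_nonneg_right hcard hl9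
      have h6 : 0 ≤ U * Ci i := by positivity
      simp only [hCm]
      linarith [h2, h5, h6]
  have hsum := Finset.sum_le_sum (fun i (_ : i ∈ (Finset.univ : Finset (Fin q))) => hmain i)
  rw [Finset.sum_sub_distrib, Finset.sum_ite_mem, Finset.univ_inter, Finset.sum_const, hT, nsmul_eq_mul] at hsum
  unfold lhs
  rw [sum_lamD]
  have hfin0 : (0 : ℝ) < Module.finrank k L := by linarith
  have h7 : (3 * Height.logHeight x - ∑ i, Cm i) / Module.finrank k L
      ≤ (∑ i, ∑ w ∈ up L S, wloc w (D i) x) / Module.finrank k L :=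
    div_le_div_of_nonneg_right (by push_cast at hsum; linarith) hfin0.le
  have h8 : (∑ i, Cm i) / Module.finrank k L ≤ ∑ i, Cm i :=
    div_le_self (Finset.sum_nonneg fun i _ => hCm0 i) hfin1
  have h9 : (3 * Height.logHeight x - ∑ i, Cm i) / Module.finrank k L
      = 3 * hgt k x - (∑ i, Cm i) / Module.finrank k L := by
    unfold hgt; ring
  rw [h9] at h7
  linarith

end

end Pool.Agent.Helper65.Vojta
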