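import Mathlib
import Pool.Agent.Helper65.Vojta.Main

/-!
The sharpness theorem.
-/

set_option linter.unusedSectionVars false
set_option linter.unusedVariables false

namespace Pool.Agent.Helper65.Vojta

open NumberField Finset Pool.Agent.Helper64.Vojta

universe u v

section

variable {k : Type u} [Field k] [NumberField k]

theorem y_mem {L : Type v} [Field L] [NumberField L] [Algebra k L] {l0 l1 l2 c d : Fin 2 → k} {a b : k}
    (hD : Dual l0 l1 l2 c d a b) (y : L) (F : IntermediateField k L)
    (hF : ∀ i j, pt c d y i / pt c d y j ∈ F) : y ∈ F := by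
  set x := pt c d y with hx
  have e0 : ev (cst l0) x = y * algebraMap k L a := by
    rw [hx, ev_pt, hD.h0c, hD.h0d]; simp
  have e2 : ev (cst l2) x = 1 := by
    rw [hx, ev_pt, hD.h2c, hD.h2d]; simp
  have hx0 : x ≠ 0 := by
    intro h0
    have : ev (cst l2) x = 0 := by rw [h0]; simp [ev]
    rw [e2] at this
    exact one_ne_zero this
  obtain ⟨i, hi⟩ := Function.ne_iff.mp hx0
  have hi' : x i ≠ 0 := hi
  have key : ∀ l : Fin 2 → k, ev (cst l) x / x i ∈ F := by
    intro l
    have : ev (cst l) x / x i = algebraMap k L (l 0) * (x 0 / x i) + algebraMap k L (l 1) * (x 1 / x i) := by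
      simp only [ev, cst, Fin.sum_univ_two]
      field_simp
    rw [this]
    exact F.add_mem (F.mul_mem (F.algebraMap_mem _) (hF 0 i)) (F.mul_mem (F.algebraMap_mem _) (hF 1 i))
  have k0 := key l0
  have k2 := key l2
  rw [e0] at k0
  rw [e2] at k2
  have haL : algebraMap k L a ≠ 0 := by simpa using hD.a0
  have : y = (y * algebraMap k L a / x i) / ((1 / x i) * algebraMap k L a) := by
    field_simp
  rw [this]
  exact F.div_mem k0 (F.mul_mem k2 (F.algebraMap_mem _))

theorem lp_pow {t : ℝ} (n : ℕ) : lp (t ^ n) = n * lp t := by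
  unfold lp
  rw [Real.log_pow, mul_max_of_nonneg _ _ (Nat.cast_nonneg _), mul_zero]

theorem nv_pow {L : Type v} [Field L] [NumberField L] (w : Pl L) (y : L) (n : ℕ) :
    nv w (y ^ n) = nv w y ^ n := by
  induction n with
  | zero => simp [nv_one]
  | succ n ih => rw [pow_succ, nv_mul, ih, pow_succ]

theorem asz_pow (L : Type v) [Field L] [NumberField L] [Algebra k L] (z : k) (n : ℕ) :
    asz L (z ^ n) = n * asz L z := by
  unfold asz
  rw [Finset.mul_sum]
  refine Finset.sum_congr rfl fun w _ => ?_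
  rw [map_pow, nv_pow, lp_pow]

theorem asz_ge (L : Type v) [Field L] [NumberField L] [Algebra k L] (z : k) (v0 : InfinitePlace k)
    (h : 1 < v0 z) : Real.log (v0 z) ≤ asz L z := by
  obtain ⟨w, hw⟩ := InfinitePlace.comap_surjective (K := L) v0
  have h1 : w (algebraMap k L z) = v0 z := by
    rw [← hw]; rfl
  have h2 : lp (nv (.inl w) (algebraMap k L z)) ≤ asz L z :=
    Finset.single_le_sum (f := fun w : InfinitePlace L => lp (nv (.inl w) (algebraMap k L z)))
      (fun _ _ => lp_nonneg _) (Finset.mem_univ w)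
  refine le_trans ?_ h2
  rw [lp_nv, h1]
  have h3 : 0 ≤ Real.log (v0 z) := Real.log_nonneg h.le
  have h4 : (1 : ℝ) ≤ w.mult := by exact_mod_cast Nat.one_le_iff_ne_zero.mpr w.mult_ne_zero
  rw [max_eq_right h3]
  nlinarith

/-- The main theorem. -/
theorem sharp (S : Finset (Pl k)) (hS : ∀ v : InfinitePlace k, Sum.inl v ∈ S) (hS2 : 2 ≤ S.card)
    {q : ℕ} (hq : 3 ≤ q) (D : Fin q → Fin 2 → k)
    (hD : ∀ i j, i ≠ j → D i 0 * D j 1 ≠ D i 1 * D j 0) :
    ∃ C : ℝ, ∀ H : ℝ, ∃ (L : Type u) (_ : Field L) (_ : NumberField L) (_ : Algebra k L)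
      (x : Fin 2 → L), x ≠ 0 ∧ (∀ i, ev (cst (D i)) x ≠ 0) ∧ Module.finrank k L ≤ 2 ∧
      (∀ F : IntermediateField k L, (∀ i j, x i / x j ∈ F) → F = ⊤) ∧
      H ≤ hgt k x ∧ hgt k x - C ≤ lhs D S x ∧
      dk k L + (Module.finrank ℚ k : ℝ) / 2 * Real.log (hgt k x) - C ≤ lhs D S x := by
  classical
  obtain ⟨ε, hε0, hεS, v0, hv0⟩ := exists_sunit S hS2
  obtain ⟨ℓ, hℓ2, e, he0, hdiv⟩ := exists_period ε hε0
  set i0 : Fin q := ⟨0, by omega⟩ with hi0
  set i1 : Fin q := ⟨1, by omega⟩ with hi1
  set i2 : Fin q := ⟨2, by omega⟩ with hi2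
  have h01 : i0 ≠ i1 := by simp [hi0, hi1]
  have h02 : i0 ≠ i2 := by simp [hi0, hi2]
  have h12 : i1 ≠ i2 := by simp [hi1, hi2]
  obtain ⟨c, d, a, b, hdual⟩ := exists_dual (D i0) (D i1) (D i2) (hD _ _ h01) (hD _ _ h02) (hD _ _ h12)
  have hD0 : ∀ i, D i ≠ 0 := by
    intro i h0
    by_cases hi : i = i0
    · have := hD i i1 (by rw [hi]; exact h01)
      rw [h0] at this; simp at this
    · have := hD i i0 hi
      rw [h0] at this; simp at this
  obtain ⟨C1, hC10, hC1⟩ := estimates.{u, u} S hS (D i0) (D i1) (D i2) c d a b hdual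
  obtain ⟨C2, hC20, hC2⟩ := lhs_ge.{u, u} S D hD0 {i0, i1, i2} (Finset.card_eq_three.mpr
    ⟨i0, i1, i2, h01, h02, h12, rfl⟩) C1 hC10
  choose Z hZ using fun i => height_le_of_zero.{u, u} (D i) (hD0 i)
  obtain ⟨B, hB1, hB⟩ := exists_bound.{u, u} (ε : k) 2
  set m : ℝ := (Module.finrank ℚ k : ℝ) with hm
  have hm1 : 1 ≤ m := by rw [hm]; exact_mod_cast Module.finrank_pos (R := ℚ) (M := k)
  have hm0 : 0 < m := by linarith
  have hlB : 0 ≤ Real.log B := Real.log_nonneg hB1
  have hl9 : 0 ≤ Real.log 9 := Real.log_nonneg (by norm_num)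
  have hl2 : 0 ≤ Real.log 2 := Real.log_nonneg (by norm_num)
  have hℓ0 : (0 : ℝ) < ℓ := by exact_mod_cast (by omega : 0 < ℓ)
  have hℓ1 : (1 : ℝ) ≤ ℓ := by exact_mod_cast (by omega : 1 ≤ ℓ)
  have hlℓ : 0 ≤ Real.log ℓ := Real.log_nonneg hℓ1
  have he1 : (1 : ℝ) ≤ e := by exact_mod_cast he0
  have hle : 0 ≤ Real.log e := Real.log_nonneg he1
  set c0 : ℝ := Real.log (v0 (ε : k)) with hc0
  have hc00 : 0 < c0 := Real.log_pos hv0
  set K0 : ℝ := 2 * m * Real.log B with hK0
  have hK00 : 0 ≤ K0 := by positivity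
  -- size of `ε` in `L`
  have hasz : ∀ (L : Type u) [Field L] [NumberField L] [Algebra k L], Module.finrank k L ≤ 2 →
      c0 ≤ asz L (ε : k) ∧ asz L (ε : k) ≤ K0 := by
    intro L _ _ _ hr
    refine ⟨asz_ge L _ v0 hv0, ?_⟩
    have h1 : ∀ w : InfinitePlace L, lp (nv (.inl w) (algebraMap k L ε)) ≤ Real.log B := by
      intro w
      refine max_le hlB ?_
      exact Real.log_le_log (nv_pos _ (by simpa using hε0)) (hB L hr _)
    calc asz L (ε : k) ≤ ∑ w : InfinitePlace L, Real.log B := Finset.sum_le_sum fun w _ => h1 w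
      _ = Fintype.card (InfinitePlace L) * Real.log B := by
          rw [Finset.sum_const, Finset.card_univ, nsmul_eq_mul]
      _ ≤ K0 := by
          have := inf_count (k := k) hr
          push_cast at this
          rw [hK0, hm]
          nlinarith
  set K : ℝ := 2 * K0 + C1 + 1 with hK
  have hK1 : 1 ≤ K := by linarith
  have hlK : 0 ≤ Real.log K := Real.log_nonneg hK1
  set C5 : ℝ := m * Real.log 2 + m / 2 * Real.log 9 + m * |Real.log (c0 / m)| with hC5
  have hC50 : 0 ≤ C5 := by positivity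
  set C6 : ℝ := m / 2 * (Real.log e + Real.log K) with hC6
  have hC60 : 0 ≤ C6 := by positivity
  refine ⟨C2 + C1 + C5 + C6, fun H => ?_⟩
  -- choice of the exponent
  set G : ℝ := C1 + 2 * |H| + 2 + ∑ i, |Z i| with hG
  obtain ⟨j, hj⟩ := exists_nat_ge (G / c0)
  have hjG : G ≤ c0 * j := by
    rw [div_le_iff₀ hc00] at hj; linarith
  set n : ℕ := e * ℓ ^ (2 * j + 1) with hn
  have hn_ge : (j + 1 : ℕ) ≤ n := by
    have h1 : 2 * j + 1 < 2 ^ (2 * j + 1) := Nat.lt_two_pow_self
    have h2 : 2 ^ (2 * j + 1) ≤ ℓ ^ (2 * j + 1) := Nat.pow_le_pow_left hℓ2 _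
    have h3 : ℓ ^ (2 * j + 1) ≤ n := Nat.le_mul_of_pos_left _ he0
    omega
  have hnj : (j : ℝ) ≤ n := by exact_mod_cast (by omega : j ≤ n)
  have hn1 : (1 : ℝ) ≤ n := by exact_mod_cast (by omega : 1 ≤ n)
  have hn0 : (0 : ℝ) < n := by linarith
  have hlogn : Real.log n = Real.log e + (2 * j + 1) * Real.log ℓ := by
    rw [hn]; push_cast
    rw [Real.log_mul (by linarith) (by positivity), Real.log_pow]
    push_cast; ring
  set J : ℝ := (j : ℝ) + 1 with hJ
  have hJ0 : 0 < J := by positivity
  obtain ⟨δ, hδ⟩ := hdiv (2 * j + 1)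
  set z : 𝓞 k := ε ^ n with hz
  have hδ' : z ^ 2 - 1 = (ℓ : 𝓞 k) ^ (2 * (j + 1)) * δ := by
    rw [hz, ← pow_mul, mul_comm n 2, hn]
    rw [show 2 * (j + 1) = 2 * j + 1 + 1 by ring]
    exact hδ
  have hz0 : z ≠ 0 := pow_ne_zero _ hε0
  have hzS : ∀ v : FinitePlace k, Sum.inr v ∉ S → v (z : k) = 1 := by
    intro v hv
    have : (z : k) = (ε : k) ^ n := by rw [hz]; push_cast; rfl
    rw [this, map_pow, hεS v hv, one_pow]
  have haszz : ∀ (L : Type u) [Field L] [NumberField L] [Algebra k L], asz L (z : k) = n * asz L (ε : k) := by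
    intro L _ _ _
    have : (z : k) = (ε : k) ^ n := by rw [hz]; push_cast; rfl
    rw [this, asz_pow]
  -- the common final step
  have step : ∀ (L : Type u) [Field L] [NumberField L] [Algebra k L], Module.finrank k L ≤ 2 →
      ∀ η : L, η ^ 2 + 1 = 2 * algebraMap k L z * η →
      (∀ F : IntermediateField k L, (-η ^ 2) ∈ F → F = ⊤) →
      dk k L + m * J * Real.log ℓ ≤ asz L (z : k) / Module.finrank k L + C5 →
      pt c d (-η ^ 2) ≠ 0 ∧ (∀ i, ev (cst (D i)) (pt c d (-η ^ 2)) ≠ 0) ∧ Module.finrank k L ≤ 2 ∧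
      (∀ F : IntermediateField k L, (∀ i j, pt c d (-η ^ 2) i / pt c d (-η ^ 2) j ∈ F) → F = ⊤) ∧
      H ≤ hgt k (pt c d (-η ^ 2)) ∧ hgt k (pt c d (-η ^ 2)) - (C2 + C1 + C5 + C6) ≤ lhs D S (pt c d (-η ^ 2)) ∧
      dk k L + m / 2 * Real.log (hgt k (pt c d (-η ^ 2))) - (C2 + C1 + C5 + C6) ≤ lhs D S (pt c d (-η ^ 2)) := by
    intro L _ _ _ hr η h hF hdk
    obtain ⟨hx0, n0, n1, n2, r0, r1, r2, hlow, hup⟩ := hC1 L hr z η hz0 hzS h
    set x := pt c d (-η ^ 2) with hx
    have hfin1 : (1 : ℝ) ≤ Module.finrank k L := by exact_mod_cast Module.finrank_pos (R := k) (M := L)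
    have hfin0 : (0 : ℝ) < Module.finrank k L := by linarith
    have hfin2 : (Module.finrank k L : ℝ) ≤ 2 := by exact_mod_cast hr
    have hA1 : c0 * n ≤ asz L (z : k) := by
      rw [haszz L]
      have := (hasz L hr).1
      nlinarith
    have hA2 : asz L (z : k) ≤ n * K0 := by
      rw [haszz L]
      exact mul_le_mul_of_nonneg_left (hasz L hr).2 hn0.le
    have hGn : G ≤ c0 * n := hjG.trans (mul_le_mul_of_nonneg_left hnj hc00.le)
    have hsumZ : 0 ≤ ∑ i, |Z i| := Finset.sum_nonneg fun i _ => abs_nonneg _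
    have hHx : 2 * |H| + 2 + ∑ i, |Z i| ≤ Height.logHeight x := by linarith
    have hax : ∀ i, ev (cst (D i)) x ≠ 0 := by
      intro i h0
      have h1 := hZ i L hr x hx0 h0
      have h2 : |Z i| ≤ ∑ i, |Z i| := Finset.single_le_sum (f := fun i => |Z i|) (fun _ _ => abs_nonneg _)
        (Finset.mem_univ i)
      have h3 := le_abs_self (Z i)
      have h4 := abs_nonneg H
      linarith
    have hloc : ∀ i ∈ ({i0, i1, i2} : Finset (Fin q)),
        Height.logHeight x - C1 ≤ ∑ w ∈ up L S, loc w (cst (D i)) x := by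
      intro i hi
      simp only [Finset.mem_insert, Finset.mem_singleton] at hi
      rcases hi with rfl | rfl | rfl
      · exact r0
      · exact r1
      · exact r2
    have hmain := hC2 L hr x hx0 hax hloc
    have hgt1 : Height.logHeight x / 2 ≤ hgt k x := by
      unfold hgt
      exact div_le_div_of_nonneg_left (Height.logHeight_nonneg _) hfin0 hfin2
    have hgt2 : hgt k x ≤ Height.logHeight x := div_le_self (Height.logHeight_nonneg _) hfin1
    have hgtpos : 1 ≤ hgt k x := by
      have := abs_nonneg H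
      linarith
    have hgt3 : asz L (z : k) / Module.finrank k L - C1 ≤ hgt k x := by
      have h1 : (asz L (z : k) - C1) / Module.finrank k L ≤ hgt k x :=
        div_le_div_of_nonneg_right hlow hfin0.le
      have h2 : C1 / Module.finrank k L ≤ C1 := div_le_self hC10 hfin1
      rw [sub_div] at h1
      linarith
    have hgt4 : hgt k x ≤ n * K := by
      have h1 : (0 : ℝ) ≤ (n - 1) * C1 := mul_nonneg (by linarith) hC10
      rw [hK]
      linarith
    have hlog : Real.log (hgt k x) ≤ Real.log e + Real.log K + 2 * J * Real.log ℓ := by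
      have h1 := Real.log_le_log (by linarith) hgt4
      rw [Real.log_mul hn0.ne' (by linarith), hlogn] at h1
      rw [hJ]
      linarith
    have hlog2 : m / 2 * Real.log (hgt k x) ≤ C6 + m * J * Real.log ℓ := by
      have := mul_le_mul_of_nonneg_left hlog (by positivity : 0 ≤ m / 2)
      rw [hC6]
      linarith
    refine ⟨hx0, hax, hr, fun F hFx => hF F (y_mem hdual _ F hFx), ?_, ?_, ?_⟩
    · have h1 := le_abs_self H
      linarith
    · linarith
    · linarith
  by_cases hsq : IsSquare ((δ : 𝓞 k) : k)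
  · -- the point is rational over `k`
    obtain ⟨t, ht⟩ := hsq
    have hη : ((z : k) - (ℓ : k) ^ (j + 1) * t) ^ 2 + 1 = 2 * algebraMap k k z * ((z : k) - (ℓ : k) ^ (j + 1) * t) := by
      have h1 : (z : k) ^ 2 - 1 = (ℓ : k) ^ (2 * (j + 1)) * (t * t) := by
        rw [← ht]
        have := congrArg (algebraMap (𝓞 k) k) hδ'
        simpa using this
      rw [Algebra.algebraMap_self, RingHom.id_apply]
      rw [mul_comm 2 (j + 1), pow_mul] at h1
      linear_combination (-1 : k) * h1
    have hr1 : Module.finrank k k = 1 := Module.finrank_self k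
    refine ⟨k, inferInstance, inferInstance, inferInstance, _, step k (by rw [hr1]; norm_num) _ hη ?_ ?_⟩
    · intro F _
      exact eq_top_iff.mpr fun t _ => F.algebraMap_mem t
    · have hdk0 : dk k k = 0 := by
        unfold dk; rw [hr1]; simp
      rw [hdk0, hr1, haszz k]
      have h1 := (hasz k (by rw [hr1]; norm_num)).1
      have h2 : J * Real.log ℓ ≤ Real.log n := by
        rw [hlogn, hJ]
        have : (0 : ℝ) ≤ j := Nat.cast_nonneg _
        nlinarith
      have h3 : Real.log n ≤ (c0 / m) * n + |Real.log (c0 / m)| := by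
        have h4 : 0 < (c0 / m) * n := by positivity
        have h5 := Real.log_le_sub_one_of_pos h4
        rw [Real.log_mul (by positivity) hn0.ne'] at h5
        have h6 := neg_abs_le (Real.log (c0 / m))
        linarith
      have h4 : m * ((c0 / m) * n) = c0 * n := by field_simp
      have h5 : m * (J * Real.log ℓ) ≤ c0 * n + m * |Real.log (c0 / m)| := by
        have := mul_le_mul_of_nonneg_left (h2.trans h3) hm0.le
        rw [mul_add, h4] at this
        exact this
      have h6 : 0 ≤ m * Real.log 2 + m / 2 * Real.log 9 := by positivity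
      have h7 : c0 * n ≤ n * asz k (ε : k) := by nlinarith
      push_cast
      rw [div_one, zero_add, hC5]
      linarith
  · -- a quadratic extension
    obtain ⟨L, hLf, hLn, hLa, θ, hr2, hθ, hadj⟩ := exists_quad δ hsq
    have hθL : (θ : L) ^ 2 = algebraMap k L (δ : k) := by
      have := congrArg (algebraMap (𝓞 L) L) hθ
      rw [map_pow] at this
      exact this
    have hzδ : (algebraMap k L z) ^ 2 - 1 = (ℓ : L) ^ (2 * (j + 1)) * algebraMap k L (δ : k) := by
      have h1 : (z : k) ^ 2 - 1 = (ℓ : k) ^ (2 * (j + 1)) * (δ : k) := by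
        have := congrArg (algebraMap (𝓞 k) k) hδ'
        simpa using this
      have h2 := congrArg (algebraMap k L) h1
      simpa using h2
    have hη : (algebraMap k L z - (ℓ : L) ^ (j + 1) * (θ : L)) ^ 2 + 1
        = 2 * algebraMap k L z * (algebraMap k L z - (ℓ : L) ^ (j + 1) * (θ : L)) := by
      rw [← hθL, mul_comm 2 (j + 1), pow_mul] at hzδ
      linear_combination (-1 : L) * hzδ
    have hδ0 : δ ≠ 0 := by
      rintro rfl
      exact hsq ⟨0, by simp⟩
    have hδL : algebraMap k L (δ : k) ≠ 0 := by simpa using hδ0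
    have hzL : algebraMap k L z ≠ 0 := by simpa using hz0
    have hℓL : (ℓ : L) ≠ 0 := by exact_mod_cast (by omega : ℓ ≠ 0)
    refine ⟨L, hLf, hLn, hLa, _, step L hr2.le _ hη ?_ ?_⟩
    · intro F hyF
      set η : L := algebraMap k L z - (ℓ : L) ^ (j + 1) * (θ : L) with hηdef
      have h1 : η = (1 - (-η ^ 2)) / (2 * algebraMap k L z) := by
        rw [eq_div_iff (mul_ne_zero two_ne_zero hzL)]
        linear_combination (-1 : L) * hη
      have h2 : η ∈ F := by
        rw [h1]
        refine F.div_mem (F.sub_mem F.one_mem hyF) (F.mul_mem ?_ (F.algebraMap_mem _))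
        exact_mod_cast F.natCast_mem 2
      have h3 : (θ : L) = (algebraMap k L z - η) / (ℓ : L) ^ (j + 1) := by
        rw [eq_div_iff (pow_ne_zero _ hℓL), hηdef]; ring
      have h4 : (θ : L) ∈ F := by
        rw [h3]
        exact F.div_mem (F.sub_mem (F.algebraMap_mem _) h2) (pow_mem (F.natCast_mem ℓ) _)
      have h5 : Algebra.adjoin k {(θ : L)} ≤ F.toSubalgebra :=
        Algebra.adjoin_le (Set.singleton_subset_iff.mpr h4)
      rw [hadj] at h5
      exact eq_top_iff.mpr fun t _ => h5 (Algebra.mem_top (R := k) (x := t))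
    · have hdisc := log_discr_le hr2 δ hδ0 θ hθ hadj
      have hfinL : (Module.finrank ℚ L : ℝ) = 2 * m := by
        have h1 := Module.finrank_mul_finrank ℚ k L
        rw [hr2] at h1
        rw [← h1, hm]; push_cast; ring
      have hw : ∀ w : InfinitePlace L, Real.log (nv (.inl w) (algebraMap k L δ))
          ≤ Real.log 9 * w.mult + 2 * lp (nv (.inl w) (algebraMap k L z))
            - (2 * (j + 1) : ℕ) * Real.log (nv (.inl w) (ℓ : L)) := by
        intro w
        have h1 : Real.log (nv (.inl w) ((algebraMap k L z) ^ 2 - 1))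
            = (2 * (j + 1) : ℕ) * Real.log (nv (.inl w) (ℓ : L)) + Real.log (nv (.inl w) (algebraMap k L δ)) := by
          rw [hzδ, nv_mul, Real.log_mul (nv_pos _ (pow_ne_zero _ hℓL)).ne' (nv_pos _ hδL).ne', nv_pow,
            Real.log_pow]
        have hne : (algebraMap k L z) ^ 2 - 1 ≠ 0 := by
          rw [hzδ]; exact mul_ne_zero (pow_ne_zero _ hℓL) hδL
        have h2 : Real.log (nv (.inl w) ((algebraMap k L z) ^ 2 - 1))
            ≤ Real.log 9 * w.mult + 2 * lp (nv (.inl w) (algebraMap k L z)) := by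
          rw [lp_nv]
          change Real.log (w ((algebraMap k L z) ^ 2 - 1) ^ w.mult) ≤ _
          rw [Real.log_pow]
          have hpos : 0 < w ((algebraMap k L z) ^ 2 - 1) := InfinitePlace.pos_iff.mpr hne
          have hb : 0 < w (algebraMap k L z) := InfinitePlace.pos_iff.mpr hzL
          have h3 : w ((algebraMap k L z) ^ 2 - 1) ≤ w (algebraMap k L z) ^ 2 + 1 := by
            have := w.1.add_le ((algebraMap k L z) ^ 2) (-1)
            have e1 : w.1 (-1 : L) = 1 := by rw [w.1.map_neg, w.1.map_one]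
            have e2 : w.1 ((algebraMap k L z) ^ 2) = w (algebraMap k L z) ^ 2 := map_pow w _ 2
            rw [e1, e2, ← sub_eq_add_neg] at this
            exact this
          have h4 : Real.log (w ((algebraMap k L z) ^ 2 - 1)) ≤ Real.log 9 + 2 * max 0 (Real.log (w (algebraMap k L z))) := by
            rcases le_total 1 (w (algebraMap k L z)) with h5 | h5
            · rw [max_eq_right (Real.log_nonneg h5)]
              have h6 : Real.log (w (algebraMap k L z) ^ 2 + 1) ≤ Real.log (9 * w (algebraMap k L z) ^ 2) :=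
                Real.log_le_log (by positivity) (by nlinarith)
              rw [Real.log_mul (by norm_num) (by positivity), Real.log_pow] at h6
              have h7 := Real.log_le_log hpos h3
              push_cast at h6
              linarith
            · rw [max_eq_left (Real.log_nonpos hb.le h5), mul_zero, add_zero]
              exact Real.log_le_log hpos (h3.trans (by nlinarith))
          have h5 : (0 : ℝ) ≤ w.mult := Nat.cast_nonneg _
          calc (w.mult : ℝ) * Real.log (w ((algebraMap k L z) ^ 2 - 1))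
              ≤ w.mult * (Real.log 9 + 2 * max 0 (Real.log (w (algebraMap k L z)))) :=
                mul_le_mul_of_nonneg_left h4 h5
            _ = _ := by ring
        linarith
      have hsum := Finset.sum_le_sum (fun w (_ : w ∈ (Finset.univ : Finset (InfinitePlace L))) => hw w)
      rw [Finset.sum_sub_distrib, Finset.sum_add_distrib, ← Finset.mul_sum, ← Finset.mul_sum, ← Finset.mul_sum,
        log_natCast_nv] at hsum
      have hmult : ∑ w : InfinitePlace L, (w.mult : ℝ) = 2 * m := by
        rw [← hfinL, ← InfinitePlace.sum_mult_eq (K := L)]; push_cast; rfl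
      rw [hmult, hfinL] at hsum
      rw [hfinL] at hdisc
      have hasz' : ∑ w : InfinitePlace L, lp (nv (.inl w) (algebraMap k L z)) = asz L (z : k) := rfl
      rw [hasz'] at hsum
      unfold dk
      rw [hr2, hC5]
      have h8 : 0 ≤ m * |Real.log (c0 / m)| := by positivity
      push_cast at hsum ⊢
      rw [hJ]
      linarith

end

end Pool.Agent.Helper65.Vojta
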